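import Pool.Agent.TH690.GU.Forms
import Pool.Agent.W24.CP.SR

/-! The weights on the integers given by a system of linear forms. -/

set_option autoImplicit false

namespace Pool.Agent.TH690.GU

open Finset Filter Topology MeasureTheory Pool.Agent.W36.GK Pool.Agent.Helper153.Vdc
open Pool.Agent.H425R3.JL (cav fav ApU q)
open Pool.Agent.W24.CP.SL (chS AvS TS)
open Pool.Agent.W24.CP Pool.Agent.W24.CP.SU

variable {D r : ℕ}

open Classical in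
/-- the weight -/
noncomputable def wt (Λ : Fin r → Fin (D + 1) → ℤ) (i0 : Fin r) (X : ℕ) (c : Fin r → ℤ) (P P' : Fin (D + 1) → ℤ)
    (b : Fin r → ℤ → ℂ) (n : ℕ) : ℂ :=
  (∑ x ∈ (box P P').filter (fun x => dot (Λ i0) x = (n : ℤ) - c i0), ∏ i ∈ univ.erase i0, b i (dot (Λ i) x + c i)) / (X : ℂ) ^ D

/-- all weights -/
def VF (Λ : Fin r → Fin (D + 1) → ℤ) (i0 : Fin r) (j : ℕ) : Set (ℕ → ℂ) :=
  {v | ∃ (c : Fin r → ℤ) (P P' : Fin (D + 1) → ℤ) (b : Fin r → ℤ → ℂ), (∀ j', P' j' - P j' ≤ ((j + 1 : ℕ) : ℤ)) ∧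
    (∀ i n, ‖b i n‖ ≤ 1) ∧ v = wt Λ i0 (j + 1) c P P' b}

theorem prod_bd1 (i0 : Fin r) (b : Fin r → ℤ → ℂ) (hb : ∀ i n, ‖b i n‖ ≤ 1) (y : Fin r → ℤ) :
    ‖∏ i ∈ univ.erase i0, b i (y i)‖ ≤ 1 := by
  rw [norm_prod]
  exact prod_le_one (fun _ _ => norm_nonneg _) fun i _ => hb i _

theorem VF_bd (Λ : Fin r → Fin (D + 1) → ℤ) (i0 : Fin r) (h0 : Λ i0 ≠ 0) (j : ℕ) (v : ℕ → ℂ) (hv : v ∈ VF Λ i0 j) (n : ℕ) :
    ‖v n‖ ≤ 1 := by
  classical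
  obtain ⟨c, P, P', b, hP, hb, rfl⟩ := hv
  unfold wt
  rw [norm_div, norm_pow, Complex.norm_natCast, div_le_one (by positivity)]
  refine (norm_sum_le _ _).trans ((sum_le_card_nsmul _ _ _ fun x _ => prod_bd1 i0 b hb _).trans ?_)
  rw [nsmul_eq_mul, mul_one]
  have := box_fiber hP h0 ((n : ℤ) - c i0)
  exact_mod_cast this

open Classical in
theorem cav_wt (Λ : Fin r → Fin (D + 1) → ℤ) (i0 : Fin r) (j : ℕ) (c : Fin r → ℤ) (P P' : Fin (D + 1) → ℤ)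
    (b : Fin r → ℤ → ℂ) (F : ℕ → ℂ) : cav (SI j) (fun n => wt Λ i0 (j + 1) c P P' b n * F n) =
    (∑ x ∈ box P P', (if 1 ≤ dot (Λ i0) x + c i0 ∧ dot (Λ i0) x + c i0 ≤ ((j + 1 : ℕ) : ℤ) then F (dot (Λ i0) x + c i0).toNat else 0) *
      ∏ i ∈ univ.erase i0, b i (dot (Λ i) x + c i)) / ((j + 1 : ℕ) : ℂ) ^ (D + 1) := by
  unfold cav
  rw [SI_card, pow_succ, ← div_div]
  congr 1
  have e1 : ∀ n ∈ SI j, wt Λ i0 (j + 1) c P P' b n * F n = (∑ x ∈ box P P', (if dot (Λ i0) x = (n : ℤ) - c i0 then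
      F n * ∏ i ∈ univ.erase i0, b i (dot (Λ i) x + c i) else 0)) / ((j + 1 : ℕ) : ℂ) ^ D := by
    intro n _
    unfold wt
    rw [div_mul_eq_mul_div, sum_mul, sum_filter]
    congr 1
    apply sum_congr rfl; intro x _
    split_ifs
    · ring
    · rfl
  rw [sum_congr rfl e1, ← sum_div, sum_comm]
  congr 1
  apply sum_congr rfl; intro x _
  by_cases hL : 1 ≤ dot (Λ i0) x + c i0 ∧ dot (Λ i0) x + c i0 ≤ ((j + 1 : ℕ) : ℤ)
  · rw [if_pos hL]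
    rw [sum_eq_single (dot (Λ i0) x + c i0).toNat]
    · rw [if_pos]
      rw [Int.toNat_of_nonneg (by omega)]; ring
    · intro n _ hn
      rw [if_neg]
      intro h
      apply hn
      omega
    · intro h
      exfalso
      apply h
      unfold SI
      rw [mem_Icc]
      omega
  · rw [if_neg hL, zero_mul]
    apply sum_eq_zero
    intro n hn
    rw [if_neg]
    intro h
    apply hL
    unfold SI at hn
    rw [mem_Icc] at hn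
    omega

theorem e_ee (x : ℝ) : Pool.Agent.H469R2.NK.e x = ee x := by
  unfold Pool.Agent.H469R2.NK.e ee
  congr 1; push_cast; ring

theorem VF_or (Λ : Fin r → Fin (D + 1) → ℤ) (i0 : Fin r) (h0 : ∀ i, Λ i ≠ 0) (hΛ : ∀ i j, i ≠ j → Indep (Λ i) (Λ j))
    (θ : ℝ) (hθ : θ ≠ 0) (η : ℝ) (hη : 0 < η) : ∃ j0 : ℕ, ∀ j, j0 ≤ j → ∀ v ∈ VF Λ i0 j,
    ‖cav (SI j) (fun n => v n * chS θ n)‖ ≤ η := by
  obtain ⟨X0, h⟩ := forms_c Λ h0 hΛ i0 hθ hη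
  refine ⟨X0, fun j hj v hv => ?_⟩
  obtain ⟨c, P, P', b, hP, hb, rfl⟩ := hv
  have h1 := h (j + 1) (by omega) c P P' hP b hb
  rw [cav_wt, norm_div, norm_pow, Complex.norm_natCast, div_le_iff₀ (by positivity)]
  refine le_trans (le_of_eq ?_) h1
  congr 1
  apply sum_congr rfl; intro x _
  congr 1
  unfold WE
  split_ifs with hL
  · unfold chS
    rw [e_ee]
    congr 3
    have h2 : (((dot (Λ i0) x + c i0).toNat : ℤ) : ℝ) = ((dot (Λ i0) x + c i0 : ℤ) : ℝ) := by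
      rw [Int.toNat_of_nonneg (by omega)]
    rw [← h2]
    norm_cast
  · rfl

open Classical in
/-- the consequence for sums over boxes -/
theorem box_of_cav (Λ : Fin r → Fin (D + 1) → ℤ) (i0 : Fin r) {F : ℕ → ℂ} {η : ℝ}
    (h : ∃ j0 : ℕ, ∀ j, j0 ≤ j → ∀ v ∈ VF Λ i0 j, ‖cav (SI j) (fun n => v n * F n)‖ ≤ η) :
    ∃ N0 : ℕ, ∀ N : ℕ, N0 ≤ N → ∀ c : Fin r → ℤ, ∀ P P' : Fin (D + 1) → ℤ, (∀ j, P' j - P j ≤ N) →
      ∀ b : Fin r → ℤ → ℂ, (∀ i n, ‖b i n‖ ≤ 1) →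
      ‖∑ x ∈ box P P', (if 1 ≤ dot (Λ i0) x + c i0 ∧ dot (Λ i0) x + c i0 ≤ (N : ℤ) then F (dot (Λ i0) x + c i0).toNat else 0) *
        ∏ i ∈ univ.erase i0, b i (dot (Λ i) x + c i)‖ ≤ η * (N : ℝ) ^ (D + 1) := by
  obtain ⟨j0, hj⟩ := h
  refine ⟨j0 + 1, fun N hN c P P' hP b hb => ?_⟩
  obtain ⟨j, rfl⟩ : ∃ j, N = j + 1 := ⟨N - 1, by omega⟩
  have h1 := hj j (by omega) _ ⟨c, P, P', b, hP, hb, rfl⟩
  rw [cav_wt, norm_div, norm_pow, Complex.norm_natCast, div_le_iff₀ (by positivity)] at h1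
  exact h1

end Pool.Agent.TH690.GU
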