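import Mathlib
import Pool.Agent.TH690.GU.Wt

/-! The joint law of the error terms of the circle problem and of the divisor problem. -/

set_option autoImplicit false

open Filter Topology MeasureTheory Finset
open Pool.Agent.H383
open Pool.Agent.H383.Gen (Bd U Ap)
open Pool.Agent.H383.AP (rm)
open Pool.Agent.H452R2.Win Pool.Agent.H452R2.Om
open Pool.Agent.H469R2.NK
open Pool.Agent.H425R3.JL
open Pool.Agent.W24.CP.SL (chS chS_zero norm_chS mcS TS TS_chr TS_one TS_lim AvS)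
open Pool.Agent.W24.CP Pool.Agent.W24.CP.SU Pool.Agent.W24.CP.SX Pool.Agent.W24.CP.SF

namespace Pool.Agent.TH690.GU

section gen

variable {ι κ : Type*} [Fintype ι] [Fintype κ]

lemma q_elim (x : ι → ℝ) (y : κ → ℝ) : q (Sum.elim x y) = q x + q y := by
  unfold q
  rw [Fintype.sum_sum_type]
  rfl

lemma ApU_elim {U1 : ℕ → ℕ → ι → ℝ} {U2 : ℕ → ℕ → κ → ℝ} {e1 : ℕ → ι → ℝ} {e2 : ℕ → κ → ℝ}
    {S : ℕ → Finset ℕ} (h1 : ApU U1 e1 S) (h2 : ApU U2 e2 S) :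
    ApU (fun M n => Sum.elim (U1 M n) (U2 M n)) (fun n => Sum.elim (e1 n) (e2 n)) S := by
  intro η hη
  obtain ⟨M1, k1⟩ := h1 (η / 2) (by positivity)
  obtain ⟨M2, k2⟩ := h2 (η / 2) (by positivity)
  refine ⟨max M1 M2, fun M hM => ?_⟩
  obtain ⟨j1, l1⟩ := k1 M (by omega)
  obtain ⟨j2, l2⟩ := k2 M (by omega)
  refine ⟨max j1 j2, fun j hj => ?_⟩
  have a1 := l1 j (by omega)
  have a2 := l2 j (by omega)
  have e : (fun n => q (Sum.elim (e1 n) (e2 n) - Sum.elim (U1 M n) (U2 M n))) =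
      fun n => q (e1 n - U1 M n) + q (e2 n - U2 M n) := by
    funext n
    rw [← q_elim]
    congr 1
    funext z
    cases z <;> rfl
  rw [e, fav_add]
  linarith


end gen

open Pool.Agent.H383.Circ in
/-- bounded test functions along the squares of a transcendental progression, for the circle -/
lemma base_circ : ∃ (t : ℝ) (ν : ProbabilityMeasure ℝ) (G : ℂ → ℂ) (eb : ℕ → ℝ), Transcendental ℤ t ∧
    Differentiable ℂ G ∧ (∀ x : ℝ, 0 ≤ (G x).re ∧ (G x).im = 0) ∧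
    (ν : Measure ℝ) = volume.withDensity (fun x : ℝ => ENNReal.ofReal (G x).re) ∧
    (∀ u v : ℝ, u < v → 0 < (ν : Measure ℝ) (Set.Ioo u v)) ∧
    Ap ag (3 * Real.pi / 4) eb t t ∧
    ∀ f : ℝ → ℝ, Continuous f → (∃ C, ∀ x, |f x| ≤ C) →
      Tendsto (fun j => fav (RS j) (fun n => f (eb n))) atTop (𝓝 (∫ x, f x ∂(ν : Measure ℝ))) := by
  obtain ⟨t, ht0, ht⟩ := SR.exists_tr
  have ht2 : 0 < t^2 := by positivity
  have hP : ∀ n : ℕ, 0 < t^2 * (n:ℝ)^2 + (2 * t^2) * n + t^2 := fun n => by positivity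
  have hsq : √(t^2) = t := Real.sqrt_sq ht0.le
  have hAp := Pool.Agent.H383.Circ.quad_Ap (a := t^2) (b := 2 * t^2) (c := t^2) ht2 (fun n => (hP n).le)
  have e0 : 2 * t^2 / (2 * √(t^2)) = t := by rw [hsq]; field_simp
  rw [hsq] at e0
  rw [hsq, e0] at hAp
  obtain ⟨ν, G, g1, g2, g3, g4, g5, g6, -⟩ :=
    Pool.Agent.H383.Circ.distr3 (a := t^2) (b := 2 * t^2) (c := t^2) ht2 hP
  refine ⟨t, ν, G, _, ht, g1, g2, g3, g4, hAp, ?_⟩
  intro f hf hC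
  obtain ⟨C, hC⟩ := hC
  have h7 := g6 f hf ⟨C, fun x => by
    have := hC x
    have h8 : 0 ≤ C := (abs_nonneg _).trans this
    nlinarith [sq_nonneg x]⟩ 1 one_pos
  rw [Metric.tendsto_atTop]
  intro η hη
  obtain ⟨N0, h8⟩ := h7 (η/2) (by positivity)
  refine ⟨N0, fun j hj => ?_⟩
  have h9 := h8 (j+1) (by omega) 0 (by
    rw [Nat.cast_zero, Real.zero_rpow (by norm_num)]; exact Nat.cast_nonneg _)
  rw [Real.dist_eq]
  refine lt_of_le_of_lt (le_of_eq ?_) (lt_of_le_of_lt h9 (by linarith))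
  congr 2
  unfold fav RS
  rw [Finset.card_range, Nat.zero_add, ← Finset.range_eq_Ico]
  congr 1
  apply Finset.sum_congr rfl
  intro n _
  beta_reduce
  rw [Pool.Agent.H383.Circ.En_quad (hP n).le]

/-- bounded test functions along the squares of a transcendental progression, for the divisor problem -/
lemma base_div : ∃ (t : ℝ) (ν : ProbabilityMeasure ℝ) (G : ℂ → ℂ) (eb : ℕ → ℝ), Transcendental ℤ t ∧
    Differentiable ℂ G ∧ (∀ x : ℝ, 0 ≤ (G x).re ∧ (G x).im = 0) ∧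
    (ν : Measure ℝ) = volume.withDensity (fun x : ℝ => ENNReal.ofReal (G x).re) ∧
    (∀ u v : ℝ, u < v → 0 < (ν : Measure ℝ) (Set.Ioo u v)) ∧
    Ap Pool.Agent.H383.Div.ad (Real.pi / 4) eb t t ∧
    ∀ f : ℝ → ℝ, Continuous f → (∃ C, ∀ x, |f x| ≤ C) →
      Tendsto (fun j => fav (RS j) (fun n => f (eb n))) atTop (𝓝 (∫ x, f x ∂(ν : Measure ℝ))) := by
  obtain ⟨t, ht0, ht⟩ := SR.exists_tr
  have ht2 : 0 < t^2 / 4 := by positivity
  have hP : ∀ n : ℕ, 0 < t^2/4 * (n:ℝ)^2 + (t^2/2) * n + t^2/4 := fun n => by positivity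
  have hsq : √(t^2/4) = t/2 := by
    rw [show t^2/4 = (t/2)^2 by ring]; exact Real.sqrt_sq (by positivity)
  have hAp := Pool.Agent.H383.Div.quad_Ap Pool.Agent.H383.Div.vor (a := t^2/4) (b := t^2/2) (c := t^2/4)
    ht2 (fun n => (hP n).le)
  have e0 : t^2/2 / √(t^2/4) = t := by rw [hsq]; field_simp
  have e1 : 2 * √(t^2/4) = t := by rw [hsq]; ring
  rw [e0, e1] at hAp
  obtain ⟨ν, G, g1, g2, g3, g4, g5, g6, -⟩ := Pool.Agent.H383.Div.distr3 Pool.Agent.H383.Div.vor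
    (a := t^2/4) (b := t^2/2) (c := t^2/4) ht2 hP
  refine ⟨t, ν, G, _, ht, g1, g2, g3, g4, hAp, ?_⟩
  intro f hf hC
  obtain ⟨C, hC⟩ := hC
  have h7 := g6 f hf ⟨C, fun x => by
    have := hC x
    have h8 : 0 ≤ C := (abs_nonneg _).trans this
    nlinarith [sq_nonneg x]⟩ 1 one_pos
  rw [Metric.tendsto_atTop]
  intro η hη
  obtain ⟨N0, h8⟩ := h7 (η/2) (by positivity)
  refine ⟨N0, fun j hj => ?_⟩
  have h9 := h8 (j+1) (by omega) 0 (by
    rw [Nat.cast_zero, Real.zero_rpow (by norm_num)]; exact Nat.cast_nonneg _)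
  rw [Real.dist_eq]
  refine lt_of_le_of_lt (le_of_eq ?_) (lt_of_le_of_lt h9 (by linarith))
  congr 2
  unfold fav RS
  rw [Finset.card_range, Nat.zero_add, ← Finset.range_eq_Ico]
  congr 1
  apply Finset.sum_congr rfl
  intro n _
  beta_reduce
  rw [Pool.Agent.H383.Div.Ed_quad (hP n).le]


open Pool.Agent.H383.Circ Pool.Agent.H383.Div in
/-- the joint law and its orthogonality to any family of weights orthogonal to `e(θ√n)` -/
theorem joint : ∃ (νP νD : ProbabilityMeasure ℝ) (GP GD : ℂ → ℂ),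
      (Differentiable ℂ GP ∧ (∀ x : ℝ, 0 ≤ (GP x).re ∧ (GP x).im = 0) ∧
        (νP : Measure ℝ) = volume.withDensity (fun x : ℝ => ENNReal.ofReal (GP x).re) ∧
        (∀ u v : ℝ, u < v → 0 < (νP : Measure ℝ) (Set.Ioo u v))) ∧
      (Differentiable ℂ GD ∧ (∀ x : ℝ, 0 ≤ (GD x).re ∧ (GD x).im = 0) ∧
        (νD : Measure ℝ) = volume.withDensity (fun x : ℝ => ENNReal.ofReal (GD x).re) ∧
        (∀ u v : ℝ, u < v → 0 < (νD : Measure ℝ) (Set.Ioo u v))) ∧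
      ∀ (k l : ℕ) (a b : Fin k → ℕ) (c d : Fin l → ℕ), (∀ i, 0 < a i) → (∀ j, 0 < c j) →
      ∃ (μ : ProbabilityMeasure (Fin k ⊕ Fin l → ℝ)) (ev' : ℕ → Fin k ⊕ Fin l → ℝ),
        (∀ n : ℕ, ev' n = Sum.elim (fun i => Ec ((a i : ℝ) * n + b i)) (fun j => Edv ((c j : ℝ) * n + d j))) ∧
        (∀ i, (μ : Measure (Fin k ⊕ Fin l → ℝ)).map (fun x => x (Sum.inl i)) = (νP : Measure ℝ)) ∧
        (∀ j, (μ : Measure (Fin k ⊕ Fin l → ℝ)).map (fun x => x (Sum.inr j)) = (νD : Measure ℝ)) ∧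
        (∀ f : (Fin k ⊕ Fin l → ℝ) → ℝ, Continuous f → (∃ C, ∀ x, |f x| ≤ C * (1 + q x)) →
          Tendsto (fun j => fav (SI j) (fun n => f (ev' n))) atTop (𝓝 (∫ x, f x ∂(μ : Measure (Fin k ⊕ Fin l → ℝ))))) ∧
        (∀ V : ℕ → Set (ℕ → ℂ), (∀ j, ∀ v ∈ V j, ∀ n, ‖v n‖ ≤ 1) →
          (∀ θ : ℝ, θ ≠ 0 → ∀ η : ℝ, 0 < η → ∃ j0 : ℕ, ∀ j, j0 ≤ j → ∀ v ∈ V j, ‖cav (SI j) (fun n => v n * chS θ n)‖ ≤ η) →
          ∀ f : (Fin k ⊕ Fin l → ℝ) → ℝ, Continuous f → (∃ C, ∀ x, |f x| ≤ C * (1 + q x)) →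
          ∀ η : ℝ, 0 < η → ∃ j0 : ℕ, ∀ j, j0 ≤ j → ∀ v ∈ V j, ‖cav (SI j) (fun n => v n *
            ((f (ev' n) - ∫ x, f x ∂(μ : Measure (Fin k ⊕ Fin l → ℝ)) : ℝ) : ℂ))‖ ≤ η) := by
  obtain ⟨t1, νP, GP, eb1, ht1, p1, p2, p3, p4, hAp1, hν1⟩ := base_circ
  obtain ⟨t2, νD, GD, eb2, ht2, d1, d2, d3, d4, hAp2, hν2⟩ := base_div
  refine ⟨νP, νD, GP, GD, ⟨p1, p2, p3, p4⟩, ⟨d1, d2, d3, d4⟩, ?_⟩
  intro k l a b c d ha hc
  set ev' : ℕ → Fin k ⊕ Fin l → ℝ := fun n => Sum.elim (ev Pool.Agent.H383.Gauss.En 1 a b n) (ev E2 2 c d n) with hev'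
  set U' : ℕ → ℕ → Fin k ⊕ Fin l → ℝ := fun M n => Sum.elim (Ux ag (3 * Real.pi / 4) 1 a M n)
    (Ux ad (Real.pi / 4) 2 c M n) with hU'
  have hU : ∀ M i, (fun n => ((U' M n i : ℝ) : ℂ)) ∈ TS := by
    intro M i
    rcases i with i | i
    · exact U_TS ag (3 * Real.pi / 4) (1 * √(a i:ℝ)) M
    · exact U_TS ad (Real.pi / 4) (2 * √(c i:ℝ)) M
  have hI : ApU U' ev' SI := ApU_elim (ApU_SI ag_Bdw ag_zero wg_Wt En_SandW one_pos a b (fun i => ha i))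
    (ApU_SI ad_Bdw2 ad_zero wd_Wt (E2_SandW vor) two_pos c d (fun i => hc i))
  obtain ⟨μ, hμ1, hμ2⟩ := SL.law hU SI_ne SI_Av hI
  have hpos1 : ∀ i, (0:ℝ) < a i := fun i => by exact_mod_cast ha i
  have hpos2 : ∀ i, (0:ℝ) < c i := fun i => by exact_mod_cast hc i
  have hev : ∀ n : ℕ, ev' n = Sum.elim (fun i => Ec ((a i : ℝ) * n + b i)) (fun j => Edv ((c j : ℝ) * n + d j)) := by
    intro n
    funext z
    rcases z with i | i
    · simp only [hev', Sum.elim_inl]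
      unfold ev
      rw [one_mul, Ec_eq (Nat.cast_nonneg _)]
      congr 1; push_cast; ring
    · simp only [hev', Sum.elim_inr]
      unfold ev E2
      rw [← Edv_eq (by positivity)]
      congr 1
      rw [mul_comm, mul_div_assoc]
      norm_num
  refine ⟨μ, ev', hev, ?_, ?_, hμ2, ?_⟩
  · intro i
    refine SW.marg_eq (af := ag) (φ := 3 * Real.pi / 4) (eb := eb1) (κ₁ := 1 * √(a i:ℝ))
      (by have := Real.sqrt_pos.mpr (hpos1 i); positivity) ht1 (Sum.inl i)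
      (fun η hη => ApU_comp1 hI (Sum.inl i) hη) ?_ hμ2 hν1
    intro η hη
    obtain ⟨M0, h3⟩ := hAp1 η hη
    refine ⟨M0, fun M hM => ?_⟩
    obtain ⟨N0, h4⟩ := h3 M hM
    refine ⟨N0, fun j hj => ?_⟩
    rw [RS_fav]
    exact h4 (j+1) (by omega)
  · intro i
    refine SW.marg_eq (af := ad) (φ := Real.pi / 4) (eb := eb2) (κ₁ := 2 * √(c i:ℝ))
      (by have := Real.sqrt_pos.mpr (hpos2 i); positivity) ht2 (Sum.inr i)
      (fun η hη => ApU_comp1 hI (Sum.inr i) hη) ?_ hμ2 hν2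
    intro η hη
    obtain ⟨M0, h3⟩ := hAp2 η hη
    refine ⟨M0, fun M hM => ?_⟩
    obtain ⟨N0, h4⟩ := h3 M hM
    refine ⟨N0, fun j hj => ?_⟩
    rw [RS_fav]
    exact h4 (j+1) (by omega)
  · intro V hV hor f hf hC η hη
    exact uo SI_ne SI_Av hV hor hU hI hf hC (hμ2 f hf hC) hη

end Pool.Agent.TH690.GU
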