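import Pool.Agent.TH690.GU.Diff

/-! Exponential sums with the iterated differences of the square root as phases. -/

set_option autoImplicit false

namespace Pool.Agent.TH690.GU

open Finset Filter Topology Pool.Agent.Helper153.Vdc

theorem prod_bd {X : ℕ} {δ : ℝ} (hδ : 0 < δ) : ∀ (hs : List ℤ), (∀ h ∈ hs, δ * X ≤ |(h : ℝ)| ∧ |(h : ℝ)| ≤ X) →
    (δ * X) ^ hs.length ≤ |((hs.prod : ℤ) : ℝ)| ∧ |((hs.prod : ℤ) : ℝ)| ≤ (X : ℝ) ^ hs.length := by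
  intro hs
  induction hs with
  | nil => intro _; simp
  | cons h t ih =>
    intro H
    obtain ⟨i1, i2⟩ := ih (fun x hx => H x (List.mem_cons_of_mem _ hx))
    obtain ⟨h1, h2⟩ := H h List.mem_cons_self
    rw [List.prod_cons, List.length_cons, Int.cast_mul]
    rw [abs_mul, pow_succ, pow_succ, mul_comm ((δ * (X : ℝ)) ^ t.length), mul_comm ((X : ℝ) ^ t.length)]
    constructor
    · exact mul_le_mul h1 i1 (by positivity) (abs_nonneg _)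
    · exact mul_le_mul h2 i2 (abs_nonneg _) (by positivity)

theorem ee_neg_sum {ι : Type*} (s : Finset ι) (f : ι → ℝ) {r : ℝ} (hr : r = 1 ∨ r = -1) :
    ‖∑ i ∈ s, ee (f i)‖ = ‖∑ i ∈ s, ee (r * f i)‖ := by
  rcases hr with rfl | rfl
  · simp
  · have h : ∀ x, ee (-1 * x) = (starRingEnd ℂ) (ee x) := by
      intro x
      unfold ee
      rw [← Complex.exp_conj]
      congr 1
      simp only [map_mul, Complex.conj_ofReal, Complex.conj_I, Complex.conj_ofNat]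
      push_cast
      ring
    simp only [h]
    rw [← map_sum, RCLike.norm_conj]

theorem sum_interval {S : Finset ℤ} {a' b' : ℤ} (hS : S = Icc a' b') (f : ℤ → ℂ) :
    ∑ n ∈ S, f n = ∑ i ∈ range (b' - a' + 1).toNat, f (b' - i) := by
  rw [hS]
  symm
  apply Finset.sum_nbij (fun i : ℕ => b' - (i : ℤ))
  · intro i hi
    rw [mem_range] at hi
    rw [mem_Icc]
    omega
  · intro i hi i' hi' he
    simp only at he
    omega
  · intro n hn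
    have hn' := mem_Icc.1 (Finset.mem_coe.1 hn)
    refine ⟨(b' - n).toNat, ?_, ?_⟩
    · rw [Finset.mem_coe, mem_range]; omega
    · simp only; omega
  · intro i _; rfl

/-- facts for large `X` -/
theorem large {κ c : ℝ} (hκ : 0 < κ) (hc : 0 < c) (C : ℝ) {σ : ℝ} (hσ : 0 < σ) {ε : ℝ} (hε : 0 < ε) :
    ∃ X0 : ℕ, 1 ≤ X0 ∧ ∀ X : ℕ, X0 ≤ X → (X : ℝ) ^ (-2 + (1 / 4 : ℝ)) ≤ c * (X : ℝ) ^ (-(3 / 2) : ℝ) ∧
      κ * (X : ℝ) ^ (-(3 / 2) : ℝ) ≤ (X : ℝ) ^ (-(1 / 4) : ℝ) ∧ C * (X : ℝ) ^ (1 - σ) ≤ ε * X := by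
  have t1 : Tendsto (fun X : ℕ => (X : ℝ) ^ (1 / 4 : ℝ)) atTop atTop :=
    (tendsto_rpow_atTop (by norm_num)).comp tendsto_natCast_atTop_atTop
  have t2 : Tendsto (fun X : ℕ => (X : ℝ) ^ (5 / 4 : ℝ)) atTop atTop :=
    (tendsto_rpow_atTop (by norm_num)).comp tendsto_natCast_atTop_atTop
  have t3 : Tendsto (fun X : ℕ => (X : ℝ) ^ σ) atTop atTop :=
    (tendsto_rpow_atTop hσ).comp tendsto_natCast_atTop_atTop
  have e := ((t1.eventually_ge_atTop (1 / c)).and ((t2.eventually_ge_atTop κ).and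
    ((t3.eventually_ge_atTop (C / ε)).and (eventually_ge_atTop 1))))
  obtain ⟨X0, h⟩ := eventually_atTop.1 e
  refine ⟨max X0 1, le_max_right _ _, fun X hX => ?_⟩
  obtain ⟨h1, h2, h3, h4⟩ := h X ((le_max_left _ _).trans hX)
  have hX0 : (0 : ℝ) < X := by exact_mod_cast h4
  refine ⟨?_, ?_, ?_⟩
  · rw [div_le_iff₀ hc] at h1
    have e1 : (X : ℝ) ^ (-2 + (1 / 4 : ℝ)) * (X : ℝ) ^ (1 / 4 : ℝ) = (X : ℝ) ^ (-(3 / 2) : ℝ) := by
      rw [← Real.rpow_add hX0]; norm_num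
    have h5 := Real.rpow_pos_of_pos hX0 (-2 + (1 / 4 : ℝ))
    rw [← e1]
    nlinarith
  · have e1 : (X : ℝ) ^ (5 / 4 : ℝ) * (X : ℝ) ^ (-(3 / 2) : ℝ) = (X : ℝ) ^ (-(1 / 4) : ℝ) := by
      rw [← Real.rpow_add hX0]; norm_num
    rw [← e1]
    exact mul_le_mul_of_nonneg_right h2 (Real.rpow_nonneg hX0.le _)
  · rw [div_le_iff₀ hε] at h3
    have e1 : (X : ℝ) ^ (1 - σ) * (X : ℝ) ^ σ = X := by
      rw [← Real.rpow_add hX0]; norm_num
    have h5 := Real.rpow_pos_of_pos hX0 (1 - σ)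
    calc C * (X : ℝ) ^ (1 - σ) ≤ ((X : ℝ) ^ σ * ε) * (X : ℝ) ^ (1 - σ) := mul_le_mul_of_nonneg_right h3 h5.le
      _ = ε * ((X : ℝ) ^ (1 - σ) * (X : ℝ) ^ σ) := by ring
      _ = _ := by rw [e1]

theorem base {θ : ℝ} (hθ : θ ≠ 0) {δ : ℝ} (hδ : 0 < δ) (j : ℕ) {ε : ℝ} (hε : 0 < ε) :
    ∃ X0 : ℕ, ∀ X : ℕ, X0 ≤ X → ∀ hs : List ℤ, hs.length = j →
      (∀ h ∈ hs, δ * X ≤ |(h : ℝ)| ∧ |(h : ℝ)| ≤ X) → ∀ a b : ℝ, δ * X ≤ a → b ≤ X →
      ∀ S : Finset ℤ, (∀ n, n ∈ S ↔ In a b hs n) →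
      ‖∑ n ∈ S, ee (θ * DD hs Real.sqrt n)‖ ≤ ε * X := by
  set κ : ℝ := |θ| * |cm (j + 2)| with hκ
  have hκ0 : 0 < κ := mul_pos (abs_pos.2 hθ) (abs_pos.2 (cm_ne _))
  set A : ℝ := max 1 (δ ^ (-((j : ℝ) + 3 / 2))) with hA
  have hA1 : 1 ≤ A := le_max_left _ _
  obtain ⟨σ, hσ, C, hC, hv⟩ := vdc 2 le_rfl A hA1 (1 / 4) (by norm_num) (by norm_num)
  obtain ⟨X0, hX01, hX0⟩ := large hκ0 (c := κ * δ ^ j) (by positivity) C hσ hε
  refine ⟨X0, fun X hX hs hj hh a b ha hb S hS => ?_⟩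
  obtain ⟨l1, l2, l3⟩ := hX0 X hX
  have hXp : (0 : ℝ) < X := by exact_mod_cast (by omega : 0 < X)
  have ha0 : 0 < a := lt_of_lt_of_le (by positivity) ha
  rcases S.eq_empty_or_nonempty with h0 | hne
  · rw [h0]; simp; positivity
  set a' := S.min' hne with ha'
  set b' := S.max' hne with hb'
  have ia : In a b hs a' := (hS a').1 (S.min'_mem hne)
  have ib : In a b hs b' := (hS b').1 (S.max'_mem hne)
  have hab : a' ≤ b' := S.min'_le _ (S.max'_mem hne)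
  have hI : ∀ n : ℤ, a' ≤ n → n ≤ b' → In a b hs n := fun n h1 h2 =>
    In.conv (by exact_mod_cast h1) (by exact_mod_cast h2) ia ib
  have hSI : S = Icc a' b' := by
    ext n
    rw [mem_Icc]
    exact ⟨fun h => ⟨S.min'_le _ h, S.le_max' _ h⟩, fun h => (hS n).2 (hI n h.1 h.2)⟩
  have hbX : (b' : ℝ) ≤ X := ib.base.2.trans hb
  have haX : (0 : ℝ) < a' := lt_of_lt_of_le ha0 ia.base.1
  have hbX' : b' ≤ (X : ℤ) := by exact_mod_cast hbX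
  have haX' : 0 < a' := by exact_mod_cast haX
  -- the product of the steps
  obtain ⟨p1, p2⟩ := prod_bd hδ hs hh
  rw [hj] at p1 p2
  set Pr : ℝ := ((hs.prod : ℤ) : ℝ) with hPr
  have hPr0 : 0 < |Pr| := lt_of_lt_of_le (by positivity) p1
  have hPrne : Pr ≠ 0 := abs_pos.1 hPr0
  set w : ℝ := θ * Pr * cm (j + 2) with hw
  have hwne : w ≠ 0 := mul_ne_zero (mul_ne_zero hθ hPrne) (cm_ne _)
  obtain ⟨s, hs1, hsw⟩ : ∃ s : ℝ, (s = 1 ∨ s = -1) ∧ s * w = |w| := by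
    rcases abs_cases w with ⟨h1, h2⟩ | ⟨h1, h2⟩
    · exact ⟨1, Or.inl rfl, by rw [h1]; ring⟩
    · exact ⟨-1, Or.inr rfl, by rw [h1]; ring⟩
  have hwabs : |w| = κ * |Pr| := by rw [hw, abs_mul, abs_mul, hκ]; ring
  set lam : ℝ := κ * |Pr| * (X : ℝ) ^ (-((j : ℝ) + 3 / 2)) with hlam
  have hlam0 : 0 < lam := by positivity
  have hexp : (X : ℝ) ^ j * (X : ℝ) ^ (-((j : ℝ) + 3 / 2)) = (X : ℝ) ^ (-(3 / 2) : ℝ) := by
    rw [← Real.rpow_natCast, ← Real.rpow_add hXp]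
    congr 1; ring
  have hXj : 0 < (X : ℝ) ^ (-((j : ℝ) + 3 / 2)) := Real.rpow_pos_of_pos hXp _
  have hl1 : (X : ℝ) ^ (-2 + (1 / 4 : ℝ)) ≤ lam := by
    refine l1.trans ?_
    rw [← hexp]
    have : (δ * X) ^ j * (X : ℝ) ^ (-((j : ℝ) + 3 / 2)) ≤ |Pr| * (X : ℝ) ^ (-((j : ℝ) + 3 / 2)) :=
      mul_le_mul_of_nonneg_right p1 hXj.le
    calc κ * δ ^ j * ((X : ℝ) ^ j * (X : ℝ) ^ (-((j : ℝ) + 3 / 2)))
        = κ * ((δ * X) ^ j * (X : ℝ) ^ (-((j : ℝ) + 3 / 2))) := by rw [mul_pow]; ring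
      _ ≤ κ * (|Pr| * (X : ℝ) ^ (-((j : ℝ) + 3 / 2))) := mul_le_mul_of_nonneg_left this hκ0.le
      _ = lam := by rw [hlam]; ring
  have hl2 : lam ≤ (X : ℝ) ^ (-(1 / 4) : ℝ) := by
    refine le_trans ?_ l2
    rw [← hexp]
    calc lam = κ * (|Pr| * (X : ℝ) ^ (-((j : ℝ) + 3 / 2))) := by rw [hlam]; ring
      _ ≤ κ * ((X : ℝ) ^ j * (X : ℝ) ^ (-((j : ℝ) + 3 / 2))) :=
        mul_le_mul_of_nonneg_left (mul_le_mul_of_nonneg_right p2 hXj.le) hκ0.le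
  -- values of the derivatives
  have hval : ∀ ξ : ℝ, a ≤ ξ → ξ ≤ b → (X : ℝ) ^ (-((j : ℝ) + 3 / 2)) ≤ ξ ^ ((1 / 2 : ℝ) - ((j + 2 : ℕ) : ℝ)) ∧
      ξ ^ ((1 / 2 : ℝ) - ((j + 2 : ℕ) : ℝ)) ≤ A * (X : ℝ) ^ (-((j : ℝ) + 3 / 2)) := by
    intro ξ h1 h2
    have hξ : 0 < ξ := lt_of_lt_of_le ha0 h1
    have e : (1 / 2 : ℝ) - ((j + 2 : ℕ) : ℝ) = -((j : ℝ) + 3 / 2) := by push_cast; ring
    rw [e]
    constructor
    · exact Real.rpow_le_rpow_of_nonpos hξ (h2.trans hb) (by linarith [Nat.cast_nonneg (α := ℝ) j])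
    · calc ξ ^ (-((j : ℝ) + 3 / 2)) ≤ (δ * X) ^ (-((j : ℝ) + 3 / 2)) :=
            Real.rpow_le_rpow_of_nonpos (by positivity) (ha.trans h1) (by linarith [Nat.cast_nonneg (α := ℝ) j])
        _ = δ ^ (-((j : ℝ) + 3 / 2)) * (X : ℝ) ^ (-((j : ℝ) + 3 / 2)) := Real.mul_rpow hδ.le hXp.le
        _ ≤ A * (X : ℝ) ^ (-((j : ℝ) + 3 / 2)) := mul_le_mul_of_nonneg_right (le_max_right _ _) hXj.le
  set M : ℕ := (b' - a' + 1).toNat with hM
  set g : ℕ → ℝ := fun i => s * (θ * DD hs Real.sqrt ((b' : ℝ) - i)) with hg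
  have hgG : ∀ i : ℕ, g i = (s * θ) * DD hs Real.sqrt ((b' : ℝ) - i) := fun i => by simp only [hg]; ring
  have hcond : Cond 2 g M lam A := by
    constructor
    · intro n hn
      rw [dd2 _ (s * θ) b' n g hgG, DD_app, DD_sqrt]
      have hin : In a b ([1, 1] ++ hs) ((b' : ℝ) - n - 2) := by
        have c0 : In a b hs ((b' : ℝ) - n - 2) := by
          have := hI (b' - n - 2) (by omega) (by omega); push_cast at this; exact this
        have c1 : In a b hs ((b' : ℝ) - n - 2 + ((1 : ℤ) : ℝ)) := by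
          have := hI (b' - n - 2 + 1) (by omega) (by omega); push_cast at this ⊢; exact this
        have c2 : In a b hs ((b' : ℝ) - n - 2 + ((1 : ℤ) : ℝ) + ((1 : ℤ) : ℝ)) := by
          have := hI (b' - n - 2 + 1 + 1) (by omega) (by omega); push_cast at this ⊢; exact this
        exact ⟨⟨c0, c1⟩, ⟨c1, c2⟩⟩
      obtain ⟨ξ, x1, x2, x3⟩ := mvt Fs_der ha0 ([1, 1] ++ hs) 0 _ hin
      rw [x3]
      have elen : 0 + ([1, 1] ++ hs : List ℤ).length = j + 2 := by simp [hj]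
      rw [elen]
      have eprod : ((([1, 1] ++ hs : List ℤ).prod : ℤ) : ℝ) = Pr := by simp [hPr]
      rw [eprod]
      unfold Fs
      obtain ⟨v1, v2⟩ := hval ξ x1 x2
      have e1 : s * θ * (Pr * (cm (j + 2) * ξ ^ ((1 / 2 : ℝ) - ((j + 2 : ℕ) : ℝ)))) =
          (κ * |Pr|) * ξ ^ ((1 / 2 : ℝ) - ((j + 2 : ℕ) : ℝ)) := by
        rw [← hwabs, ← hsw, hw]; ring
      rw [e1]
      constructor
      · rw [hlam]
        exact mul_le_mul_of_nonneg_left v1 (by positivity)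
      · calc κ * |Pr| * ξ ^ ((1 / 2 : ℝ) - ((j + 2 : ℕ) : ℝ)) ≤ κ * |Pr| * (A * (X : ℝ) ^ (-((j : ℝ) + 3 / 2))) :=
              mul_le_mul_of_nonneg_left v2 (by positivity)
          _ = A * lam := by rw [hlam]; ring
    · intro n hn
      rw [dd3 _ (s * θ) b' n g hgG, DD_app, DD_sqrt]
      have hin : In a b ([1, 1, 1] ++ hs) ((b' : ℝ) - n - 3) := by
        have c0 : In a b hs ((b' : ℝ) - n - 3) := by
          have := hI (b' - n - 3) (by omega) (by omega); push_cast at this; exact this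
        have c1 : In a b hs ((b' : ℝ) - n - 3 + ((1 : ℤ) : ℝ)) := by
          have := hI (b' - n - 3 + 1) (by omega) (by omega); push_cast at this ⊢; exact this
        have c2 : In a b hs ((b' : ℝ) - n - 3 + ((1 : ℤ) : ℝ) + ((1 : ℤ) : ℝ)) := by
          have := hI (b' - n - 3 + 1 + 1) (by omega) (by omega); push_cast at this ⊢; exact this
        have c3 : In a b hs ((b' : ℝ) - n - 3 + ((1 : ℤ) : ℝ) + ((1 : ℤ) : ℝ) + ((1 : ℤ) : ℝ)) := by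
          have := hI (b' - n - 3 + 1 + 1 + 1) (by omega) (by omega); push_cast at this ⊢; exact this
        exact ⟨⟨⟨c0, c1⟩, ⟨c1, c2⟩⟩, ⟨⟨c1, c2⟩, ⟨c2, c3⟩⟩⟩
      obtain ⟨ξ, x1, x2, x3⟩ := mvt Fs_der ha0 ([1, 1, 1] ++ hs) 0 _ hin
      rw [x3]
      have elen : 0 + ([1, 1, 1] ++ hs : List ℤ).length = j + 2 + 1 := by simp [hj]
      rw [elen]
      have eprod : ((([1, 1, 1] ++ hs : List ℤ).prod : ℤ) : ℝ) = Pr := by simp [hPr]
      rw [eprod]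
      unfold Fs
      rw [cm]
      have hξ : 0 < ξ := lt_of_lt_of_le ha0 x1
      have e1 : -(s * θ * (Pr * (cm (j + 2) * (1 / 2 - ((j + 2 : ℕ) : ℝ)) * ξ ^ ((1 / 2 : ℝ) - ((j + 2 + 1 : ℕ) : ℝ))))) =
          (κ * |Pr|) * ((((j + 2 : ℕ) : ℝ) - 1 / 2) * ξ ^ ((1 / 2 : ℝ) - ((j + 2 + 1 : ℕ) : ℝ))) := by
        rw [← hwabs, ← hsw, hw]; ring
      rw [e1]
      have : 0 ≤ ((j + 2 : ℕ) : ℝ) - 1 / 2 := by push_cast; linarith [Nat.cast_nonneg (α := ℝ) j]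
      have h9 := (Real.rpow_pos_of_pos hξ ((1 / 2 : ℝ) - ((j + 2 + 1 : ℕ) : ℝ))).le
      positivity
  have hfin := hv X M g lam (by omega) (by omega) hcond hl1 hl2
  have e2 : ‖∑ n ∈ S, ee (θ * DD hs Real.sqrt n)‖ = ‖∑ n ∈ range M, ee (g n)‖ := by
    rw [sum_interval hSI, ee_neg_sum _ _ hs1]
    congr 1
    apply sum_congr rfl; intro i _
    simp only [hg]
    push_cast; rfl
  rw [e2]
  exact hfin.trans l3

end Pool.Agent.TH690.GU
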