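import Pool.Agent.TH690.GU.Base
import Pool.Agent.W36.GK.K18

/-! Complex cube sums and the Cauchy-Schwarz inequality. -/

set_option autoImplicit false

namespace Pool.Agent.TH690.GU

open Finset Filter Topology Pool.Agent.W36.GU Pool.Agent.W36.GV

/-- families of functions indexed by the vertices of a cube -/
def Fam : ℕ → Type
  | 0 => ℤ → ℂ
  | k + 1 => Fam k × Fam k

/-- leafwise product with a shift -/
def mS : (k : ℕ) → ℤ → Fam k → Fam k → Fam k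
  | 0, t, f, g => fun n : ℤ => (f n * g (n + t) : ℂ)
  | k + 1, t, f, g => (mS k t f.1 g.1, mS k t f.2 g.2)

noncomputable def cj : (k : ℕ) → Fam k → Fam k
  | 0, f => fun n : ℤ => starRingEnd ℂ (f n)
  | k + 1, f => (cj k f.1, cj k f.2)

def top : (k : ℕ) → Fam k → (ℤ → ℂ)
  | 0, f => f
  | k + 1, f => top k f.1

def cst : (k : ℕ) → (ℤ → ℂ) → Fam k
  | 0, g => g
  | k + 1, g => (cst k g, cst k g)

def rT : (k : ℕ) → Fam k → (ℤ → ℂ) → Fam k
  | 0, _, g => g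
  | k + 1, f, g => (rT k f.1 g, f.2)

def Al (p : (ℤ → ℂ) → Prop) : (k : ℕ) → Fam k → Prop
  | 0, f => p f
  | k + 1, f => Al p k f.1 ∧ Al p k f.2

noncomputable def CG : (k : ℕ) → Fam k → ℕ → ℂ
  | 0, f, X => ∑ n ∈ Icc (1 : ℤ) X, f n
  | k + 1, f, X => ∑ t ∈ Icc (-(X : ℤ)) X, CG k (mS k t f.1 f.2) X

noncomputable def NG : (k : ℕ) → Fam k → ℕ → ℝ
  | 0, f, X => ‖(∑ n ∈ Icc (1 : ℤ) X, f n : ℂ)‖ ^ 2
  | k + 1, f, X => ∑ t ∈ Icc (-(X : ℤ)) X, NG k (mS k t f.1 f.2) X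

def BC (f : ℤ → ℂ) : Prop := ∀ n, ‖f n‖ ≤ 1
def SC (X : ℕ) (f : ℤ → ℂ) : Prop := ∀ n, f n ≠ 0 → 1 ≤ n ∧ n ≤ (X : ℤ)

theorem mS_comm : ∀ (k : ℕ) (s t : ℤ) (a0 b0 a1 b1 : Fam k),
    mS k s (mS k t a0 b0) (mS k t a1 b1) = mS k t (mS k s a0 a1) (mS k s b0 b1) := by
  intro k
  induction k with
  | zero =>
    intro s t a0 b0 a1 b1
    funext n
    show (a0 n * b0 (n + t)) * (a1 (n + s) * b1 (n + s + t)) = (a0 n * a1 (n + s)) * (b0 (n + t) * b1 (n + t + s))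
    rw [add_right_comm n s t]; ring
  | succ k ih =>
    intro s t a0 b0 a1 b1
    exact Prod.ext (ih s t a0.1 b0.1 a1.1 b1.1) (ih s t a0.2 b0.2 a1.2 b1.2)

theorem cj_mS : ∀ (k : ℕ) (t : ℤ) (a b : Fam k), cj k (mS k t a b) = mS k t (cj k a) (cj k b) := by
  intro k
  induction k with
  | zero =>
    intro t a b
    funext n
    show starRingEnd ℂ (a n * b (n + t)) = starRingEnd ℂ (a n) * starRingEnd ℂ (b (n + t))
    rw [map_mul]
  | succ k ih =>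
    intro t a b
    exact Prod.ext (ih t a.1 b.1) (ih t a.2 b.2)

theorem BC_mS : ∀ (k : ℕ) (t : ℤ) (a b : Fam k), Al BC k a → Al BC k b → Al BC k (mS k t a b) := by
  intro k
  induction k with
  | zero =>
    intro t a b ha hb n
    show ‖a n * b (n + t)‖ ≤ 1
    rw [norm_mul]
    exact mul_le_one₀ (ha n) (norm_nonneg _) (hb _)
  | succ k ih =>
    intro t a b ha hb
    exact ⟨ih t a.1 b.1 ha.1 hb.1, ih t a.2 b.2 ha.2 hb.2⟩

theorem SC_mS {X : ℕ} : ∀ (k : ℕ) (t : ℤ) (a b : Fam k), Al (SC X) k a → Al (SC X) k (mS k t a b) := by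
  intro k
  induction k with
  | zero =>
    intro t a b ha n hn
    exact ha n (left_ne_zero_of_mul hn)
  | succ k ih =>
    intro t a b ha
    exact ⟨ih t a.1 b.1 ha.1, ih t a.2 b.2 ha.2⟩

theorem BC_cj : ∀ (k : ℕ) (a : Fam k), Al BC k a → Al BC k (cj k a) := by
  intro k
  induction k with
  | zero =>
    intro a ha n
    show ‖starRingEnd ℂ (a n)‖ ≤ 1
    rw [RCLike.norm_conj]; exact ha n
  | succ k ih => intro a ha; exact ⟨ih a.1 ha.1, ih a.2 ha.2⟩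

theorem SC_cj {X : ℕ} : ∀ (k : ℕ) (a : Fam k), Al (SC X) k a → Al (SC X) k (cj k a) := by
  intro k
  induction k with
  | zero =>
    intro a ha n hn
    apply ha n
    intro h0
    apply hn
    show starRingEnd ℂ (a n) = 0
    rw [h0, map_zero]
  | succ k ih => intro a ha; exact ⟨ih a.1 ha.1, ih a.2 ha.2⟩

theorem top_mS : ∀ (k : ℕ) (t : ℤ) (a b : Fam k), top k (mS k t a b) = fun n => top k a n * top k b (n + t) := by
  intro k
  induction k with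
  | zero => intro t a b; rfl
  | succ k ih => intro t a b; exact ih t a.1 b.1

theorem top_cj : ∀ (k : ℕ) (a : Fam k), top k (cj k a) = fun n => starRingEnd ℂ (top k a n) := by
  intro k
  induction k with
  | zero => intro a; rfl
  | succ k ih => intro a; exact ih a.1

theorem z1 {X : ℕ} (a : ℤ → ℂ) (ha : SC X a) : ∑ t ∈ Icc (-(X : ℤ)) X, ∑ n ∈ Icc (1 : ℤ) X, starRingEnd ℂ (a n) * a (n + t) =
    ((‖(∑ n ∈ Icc (1 : ℤ) X, a n : ℂ)‖ ^ 2 : ℝ) : ℂ) := by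
  rw [sum_comm]
  have h1 : ∀ n ∈ Icc (1 : ℤ) X, ∑ t ∈ Icc (-(X : ℤ)) X, starRingEnd ℂ (a n) * a (n + t) =
      starRingEnd ℂ (a n) * ∑ m ∈ Icc (1 : ℤ) X, a m := by
    intro n hn
    rw [← mul_sum, shift_sumC (G := a) ha (mem_Icc.1 hn)]
  rw [sum_congr rfl h1, ← sum_mul, ← map_sum, ← Complex.normSq_eq_conj_mul_self, Complex.normSq_eq_norm_sq]

theorem z2 {X : ℕ} (a b : ℤ → ℂ) (hb : SC X b) : ∑ t ∈ Icc (-(X : ℤ)) X, ∑ n ∈ Icc (1 : ℤ) X, a n * b (n + t) =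
    (∑ n ∈ Icc (1 : ℤ) X, a n) * (∑ m ∈ Icc (1 : ℤ) X, b m) := by
  rw [sum_comm, sum_mul]
  apply sum_congr rfl
  intro n hn
  rw [← mul_sum, shift_sumC (G := b) hb (mem_Icc.1 hn)]

theorem NG_eq {X : ℕ} : ∀ (k : ℕ) (a : Fam k), Al (SC X) k a → CG (k + 1) (cj k a, a) X = ((NG k a X : ℝ) : ℂ) := by
  intro k
  induction k with
  | zero =>
    intro a ha
    exact z1 a ha
  | succ k ih =>
    intro a ha
    show ∑ t ∈ Icc (-(X : ℤ)) X, ∑ s ∈ Icc (-(X : ℤ)) X, CG k (mS k s (mS k t (cj k a.1) a.1) (mS k t (cj k a.2) a.2)) X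
      = ((∑ s ∈ Icc (-(X : ℤ)) X, NG k (mS k s a.1 a.2) X : ℝ) : ℂ)
    rw [sum_comm, Complex.ofReal_sum]
    apply sum_congr rfl; intro s _
    rw [← ih _ (SC_mS k s a.1 a.2 ha.1)]
    show _ = ∑ t ∈ Icc (-(X : ℤ)) X, CG k (mS k t (cj k (mS k s a.1 a.2)) (mS k s a.1 a.2)) X
    apply sum_congr rfl; intro t _
    rw [mS_comm, cj_mS]

theorem NG_nonneg {X : ℕ} : ∀ (k : ℕ) (a : Fam k), 0 ≤ NG k a X := by
  intro k
  induction k with
  | zero => intro a; exact sq_nonneg _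
  | succ k ih => intro a; exact sum_nonneg fun t _ => ih _

theorem CS {X : ℕ} : ∀ (k : ℕ) (a b : Fam k), Al (SC X) k a → Al (SC X) k b →
    ‖CG (k + 1) (a, b) X‖ ≤ √(NG k a X) * √(NG k b X) := by
  intro k
  induction k with
  | zero =>
    intro a b ha hb
    have e : CG (0 + 1) (a, b) X = (∑ n ∈ Icc (1 : ℤ) X, a n) * (∑ m ∈ Icc (1 : ℤ) X, b m) := z2 a b hb
    rw [e, norm_mul]
    show _ ≤ √(‖(∑ n ∈ Icc (1 : ℤ) X, a n : ℂ)‖ ^ 2) * √(‖(∑ n ∈ Icc (1 : ℤ) X, b n : ℂ)‖ ^ 2)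
    rw [Real.sqrt_sq (norm_nonneg _), Real.sqrt_sq (norm_nonneg _)]
  | succ k ih =>
    intro a b ha hb
    have e : CG (k + 1 + 1) (a, b) X = ∑ s ∈ Icc (-(X : ℤ)) X, CG (k + 1) (mS k s a.1 a.2, mS k s b.1 b.2) X := by
      show ∑ t ∈ Icc (-(X : ℤ)) X, ∑ s ∈ Icc (-(X : ℤ)) X, CG k (mS k s (mS k t a.1 b.1) (mS k t a.2 b.2)) X = _
      rw [sum_comm]
      apply sum_congr rfl; intro s _
      show _ = ∑ t ∈ Icc (-(X : ℤ)) X, CG k (mS k t (mS k s a.1 a.2) (mS k s b.1 b.2)) X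
      apply sum_congr rfl; intro t _
      rw [mS_comm]
    rw [e]
    refine (norm_sum_le _ _).trans ((sum_le_sum fun s _ => ih _ _ (SC_mS k s a.1 a.2 ha.1) (SC_mS k s b.1 b.2 hb.1)).trans ?_)
    exact Real.sum_sqrt_mul_sqrt_le _ (fun s => NG_nonneg k _) (fun s => NG_nonneg k _)

theorem card_IX {X : ℕ} (hX : 1 ≤ X) : ((Icc (-(X : ℤ)) X).card : ℝ) ≤ 3 * X := by
  rw [Int.card_Icc]
  have h : ((X : ℤ) + 1 - -(X : ℤ)).toNat = 2 * X + 1 := by omega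
  rw [h]; push_cast
  have : (1 : ℝ) ≤ X := by exact_mod_cast hX
  linarith

theorem NG_le {X : ℕ} (hX : 1 ≤ X) : ∀ (k : ℕ) (a : Fam k), Al BC k a → NG k a X ≤ 3 ^ k * (X : ℝ) ^ (k + 2) := by
  intro k
  induction k with
  | zero =>
    intro a ha
    show ‖(∑ n ∈ Icc (1 : ℤ) X, a n : ℂ)‖ ^ 2 ≤ _
    have h1 : ‖(∑ n ∈ Icc (1 : ℤ) X, a n : ℂ)‖ ≤ X := by
      refine (norm_sum_le _ _).trans ((sum_le_card_nsmul _ _ _ (fun n _ => ha n)).trans ?_)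
      rw [Int.card_Icc]; simp
    have := pow_le_pow_left₀ (norm_nonneg _) h1 2
    simpa using this
  | succ k ih =>
    intro a ha
    show ∑ t ∈ Icc (-(X : ℤ)) X, NG k (mS k t a.1 a.2) X ≤ _
    refine (sum_le_card_nsmul _ _ _ (fun t _ => ih _ (BC_mS k t a.1 a.2 ha.1 ha.2))).trans ?_
    rw [nsmul_eq_mul]
    calc ((Icc (-(X : ℤ)) X).card : ℝ) * (3 ^ k * (X : ℝ) ^ (k + 2)) ≤ (3 * X) * (3 ^ k * (X : ℝ) ^ (k + 2)) :=
          mul_le_mul_of_nonneg_right (card_IX hX) (by positivity)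
      _ = _ := by ring

theorem CG_l1 {X : ℕ} (hX : 1 ≤ X) : ∀ (k : ℕ) (a : Fam k), Al BC k a →
    ‖CG k a X‖ ≤ 3 ^ k * (X : ℝ) ^ k * ∑ n ∈ Icc (1 : ℤ) X, ‖top k a n‖ := by
  intro k
  induction k with
  | zero =>
    intro a ha
    show ‖(∑ n ∈ Icc (1 : ℤ) X, a n : ℂ)‖ ≤ _
    simp only [pow_zero, one_mul]
    exact norm_sum_le _ _
  | succ k ih =>
    intro a ha
    show ‖∑ t ∈ Icc (-(X : ℤ)) X, CG k (mS k t a.1 a.2) X‖ ≤ _
    refine (norm_sum_le _ _).trans ?_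
    have h1 : ∀ t ∈ Icc (-(X : ℤ)) X, ‖CG k (mS k t a.1 a.2) X‖ ≤ 3 ^ k * (X : ℝ) ^ k * ∑ n ∈ Icc (1 : ℤ) X, ‖top k a.1 n‖ := by
      intro t _
      refine (ih _ (BC_mS k t a.1 a.2 ha.1 ha.2)).trans ?_
      apply mul_le_mul_of_nonneg_left _ (by positivity)
      apply sum_le_sum; intro n _
      rw [top_mS, norm_mul]
      apply mul_le_of_le_one_right (norm_nonneg _)
      have : ∀ (k : ℕ) (b : Fam k), Al BC k b → BC (top k b) := by
        intro k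
        induction k with
        | zero => intro b hb; exact hb
        | succ k ih => intro b hb; exact ih b.1 hb.1
      exact this k a.2 ha.2 _
    refine (sum_le_card_nsmul _ _ _ h1).trans ?_
    rw [nsmul_eq_mul]
    have h2 : (0 : ℝ) ≤ ∑ n ∈ Icc (1 : ℤ) X, ‖top k a.1 n‖ := sum_nonneg fun _ _ => norm_nonneg _
    calc ((Icc (-(X : ℤ)) X).card : ℝ) * (3 ^ k * (X : ℝ) ^ k * ∑ n ∈ Icc (1 : ℤ) X, ‖top k a.1 n‖)
        ≤ (3 * X) * (3 ^ k * (X : ℝ) ^ k * ∑ n ∈ Icc (1 : ℤ) X, ‖top k a.1 n‖) :=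
          mul_le_mul_of_nonneg_right (card_IX hX) (by positivity)
      _ = 3 ^ (k + 1) * (X : ℝ) ^ (k + 1) * ∑ n ∈ Icc (1 : ℤ) X, ‖top k a.1 n‖ := by ring

theorem mS_rT : ∀ (k : ℕ) (t : ℤ) (a b : Fam k) (g : ℤ → ℂ),
    mS k t (rT k a g) b = rT k (mS k t a b) (fun n => g n * top k b (n + t)) := by
  intro k
  induction k with
  | zero => intro t a b g; rfl
  | succ k ih => intro t a b g; exact Prod.ext (ih t a.1 b.1 g) rfl

theorem CG_add {X : ℕ} : ∀ (k : ℕ) (a : Fam k) (g h : ℤ → ℂ),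
    CG k (rT k a (fun n => g n + h n)) X = CG k (rT k a g) X + CG k (rT k a h) X := by
  intro k
  induction k with
  | zero =>
    intro a g h
    show ∑ n ∈ Icc (1 : ℤ) X, (g n + h n) = ∑ n ∈ Icc (1 : ℤ) X, g n + ∑ n ∈ Icc (1 : ℤ) X, h n
    rw [sum_add_distrib]
  | succ k ih =>
    intro a g h
    show ∑ t ∈ Icc (-(X : ℤ)) X, CG k (mS k t (rT k a.1 (fun n => g n + h n)) a.2) X =
      ∑ t ∈ Icc (-(X : ℤ)) X, CG k (mS k t (rT k a.1 g) a.2) X + ∑ t ∈ Icc (-(X : ℤ)) X, CG k (mS k t (rT k a.1 h) a.2) X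
    rw [← sum_add_distrib]
    apply sum_congr rfl; intro t _
    rw [mS_rT, mS_rT, mS_rT, ← ih]
    congr 2
    funext n; ring

theorem CG_smul {X : ℕ} : ∀ (k : ℕ) (a : Fam k) (z : ℂ) (g : ℤ → ℂ),
    CG k (rT k a (fun n => z * g n)) X = z * CG k (rT k a g) X := by
  intro k
  induction k with
  | zero =>
    intro a z g
    show ∑ n ∈ Icc (1 : ℤ) X, (z * g n) = z * ∑ n ∈ Icc (1 : ℤ) X, g n
    rw [mul_sum]
  | succ k ih =>
    intro a z g
    show ∑ t ∈ Icc (-(X : ℤ)) X, CG k (mS k t (rT k a.1 (fun n => z * g n)) a.2) X =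
      z * ∑ t ∈ Icc (-(X : ℤ)) X, CG k (mS k t (rT k a.1 g) a.2) X
    rw [mul_sum]
    apply sum_congr rfl; intro t _
    rw [mS_rT, mS_rT, ← ih]
    congr 2
    funext n; ring

theorem CG_cj {X : ℕ} : ∀ (k : ℕ) (a : Fam k), CG k (cj k a) X = starRingEnd ℂ (CG k a X) := by
  intro k
  induction k with
  | zero =>
    intro a
    exact (map_sum (starRingEnd ℂ) (fun n : ℤ => (show ℂ from a n)) (Icc (1 : ℤ) X)).symm
  | succ k ih =>
    intro a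
    show ∑ t ∈ Icc (-(X : ℤ)) X, CG k (mS k t (cj k a.1) (cj k a.2)) X = starRingEnd ℂ (∑ t ∈ Icc (-(X : ℤ)) X, CG k (mS k t a.1 a.2) X)
    rw [map_sum]
    apply sum_congr rfl; intro t _
    rw [← cj_mS, ih]

theorem top_rT : ∀ (k : ℕ) (a : Fam k) (g : ℤ → ℂ), top k (rT k a g) = g := by
  intro k
  induction k with
  | zero => intro a g; rfl
  | succ k ih => intro a g; exact ih a.1 g

theorem Al_rT {p : (ℤ → ℂ) → Prop} : ∀ (k : ℕ) (a : Fam k) (g : ℤ → ℂ), Al p k a → p g → Al p k (rT k a g) := by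
  intro k
  induction k with
  | zero => intro a g _ hg; exact hg
  | succ k ih => intro a g ha hg; exact ⟨ih a.1 g ha.1 hg, ha.2⟩

theorem Al_cst {p : (ℤ → ℂ) → Prop} : ∀ (k : ℕ) (g : ℤ → ℂ), p g → Al p k (cst k g) := by
  intro k
  induction k with
  | zero => intro g hg; exact hg
  | succ k ih => intro g hg; exact ⟨ih g hg, ih g hg⟩

theorem rT_cst : ∀ (k : ℕ) (g : ℤ → ℂ), rT k (cst k g) g = cst k g := by
  intro k
  induction k with
  | zero => intro g; rfl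
  | succ k ih => intro g; exact Prod.ext (ih g) rfl

theorem cj_rT : ∀ (k : ℕ) (a : Fam k) (g : ℤ → ℂ), cj k (rT k a g) = rT k (cj k a) (fun n => starRingEnd ℂ (g n)) := by
  intro k
  induction k with
  | zero => intro a g; rfl
  | succ k ih => intro a g; exact Prod.ext (ih a.1 g) rfl

theorem cj_cst : ∀ (k : ℕ) (g : ℤ → ℂ), cj k (cst k g) = cst k (fun n => starRingEnd ℂ (g n)) := by
  intro k
  induction k with
  | zero => intro g; rfl
  | succ k ih => intro g; exact Prod.ext (ih g) (ih g)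

theorem mS_cst : ∀ (k : ℕ) (t : ℤ) (g h : ℤ → ℂ), mS k t (cst k g) (cst k h) = cst k (fun n => g n * h (n + t)) := by
  intro k
  induction k with
  | zero => intro t g h; rfl
  | succ k ih => intro t g h; exact Prod.ext (ih t g h) (ih t g h)

theorem CG_cst {X : ℕ} : ∀ (k : ℕ) (F : ℤ → ℝ), CG k (cst k (fun n => (F n : ℂ))) X = ((GN k F X : ℝ) : ℂ) := by
  intro k
  induction k with
  | zero =>
    intro F
    show ∑ n ∈ Icc (1 : ℤ) X, (F n : ℂ) = ((∑ n ∈ Icc (1 : ℤ) X, F n : ℝ) : ℂ)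
    rw [Complex.ofReal_sum]
  | succ k ih =>
    intro F
    show ∑ t ∈ Icc (-(X : ℤ)) X, CG k (mS k t (cst k (fun n => (F n : ℂ))) (cst k (fun n => (F n : ℂ)))) X =
      ((∑ t ∈ Icc (-(X : ℤ)) X, GN k (De t F) X : ℝ) : ℂ)
    rw [Complex.ofReal_sum]
    apply sum_congr rfl; intro t _
    rw [mS_cst, ← ih]
    congr 2
    funext n
    unfold De
    push_cast; rfl

end Pool.Agent.TH690.GU
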