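import Mathlib
import Pool.Agent.Helper153.FacC

/-! Iterated differences of the square root and the exponential sums with these phases. -/

set_option autoImplicit false

namespace Pool.Agent.TH690.GU

open Finset Pool.Agent.Helper153.Vdc

/-- iterated differences -/
def DD : List ℤ → (ℝ → ℝ) → ℝ → ℝ
  | [], F, x => F x
  | h :: t, F, x => DD t F (x + h) - DD t F x

/-- all vertices lie in `[lo, hi]` -/
def In (lo hi : ℝ) : List ℤ → ℝ → Prop
  | [], x => lo ≤ x ∧ x ≤ hi
  | h :: t, x => In lo hi t x ∧ In lo hi t (x + h)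

theorem In.conv {lo hi : ℝ} : ∀ {hs : List ℤ} {x y z : ℝ}, x ≤ y → y ≤ z → In lo hi hs x → In lo hi hs z →
    In lo hi hs y := by
  intro hs
  induction hs with
  | nil => intro x y z h1 h2 hx hz; exact ⟨hx.1.trans h1, h2.trans hz.2⟩
  | cons h t ih =>
    intro x y z h1 h2 hx hz
    exact ⟨ih h1 h2 hx.1 hz.1, ih (by linarith) (by linarith) hx.2 hz.2⟩

theorem In.base {lo hi : ℝ} : ∀ {hs : List ℤ} {x : ℝ}, In lo hi hs x → lo ≤ x ∧ x ≤ hi := by
  intro hs
  induction hs with
  | nil => intro x hx; exact hx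
  | cons h t ih => intro x hx; exact ih hx.1

/-- a family of functions, each the derivative of the previous one -/
def Der (F : ℕ → ℝ → ℝ) : Prop := ∀ i x, 0 < x → HasDerivAt (F i) (F (i + 1) x) x

theorem DD_der {F : ℕ → ℝ → ℝ} (hF : Der F) {lo hi : ℝ} (hlo : 0 < lo) : ∀ (hs : List ℤ) (i : ℕ) (x : ℝ),
    In lo hi hs x → HasDerivAt (DD hs (F i)) (DD hs (F (i + 1)) x) x := by
  intro hs
  induction hs with
  | nil => intro i x hx; exact hF i x (lt_of_lt_of_le hlo hx.1)
  | cons h t ih =>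
    intro i x hx
    have h1 := ih i x hx.1
    have h2 := ih i (x + h) hx.2
    have h3 : HasDerivAt (fun y : ℝ => DD t (F i) (y + h)) (DD t (F (i + 1)) (x + h)) x := by
      have := HasDerivAt.comp_add_const x (h : ℝ) h2
      simpa using this
    exact h3.sub h1

theorem mvt {F : ℕ → ℝ → ℝ} (hF : Der F) {lo hi : ℝ} (hlo : 0 < lo) : ∀ (hs : List ℤ) (i : ℕ) (x : ℝ),
    In lo hi hs x → ∃ ξ, lo ≤ ξ ∧ ξ ≤ hi ∧ DD hs (F i) x = (hs.prod : ℤ) * F (i + hs.length) ξ := by
  intro hs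
  induction hs with
  | nil => intro i x hx; exact ⟨x, hx.1, hx.2, by simp [DD]⟩
  | cons h t ih =>
    intro i x hx
    have key : ∃ y, In lo hi t y ∧ DD t (F i) (x + h) - DD t (F i) x = h * DD t (F (i + 1)) y := by
      rcases lt_trichotomy (h : ℝ) 0 with hh | hh | hh
      · have hlt : x + h < x := by linarith
        obtain ⟨y, hy, he⟩ := exists_hasDerivAt_eq_slope (DD t (F i)) (DD t (F (i + 1))) hlt
          (fun z hz => ((DD_der hF hlo t i z (In.conv hz.1 hz.2 hx.2 hx.1)).continuousAt).continuousWithinAt)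
          (fun z hz => DD_der hF hlo t i z (In.conv hz.1.le hz.2.le hx.2 hx.1))
        refine ⟨y, In.conv hy.1.le hy.2.le hx.2 hx.1, ?_⟩
        rw [he]
        have hne : (h : ℝ) ≠ 0 := hh.ne
        have : x - (x + h) = -h := by ring
        rw [this]
        field_simp
        ring
      · refine ⟨x, hx.1, ?_⟩
        rw [hh, add_zero, sub_self, zero_mul]
      · have hlt : x < x + h := by linarith
        obtain ⟨y, hy, he⟩ := exists_hasDerivAt_eq_slope (DD t (F i)) (DD t (F (i + 1))) hlt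
          (fun z hz => ((DD_der hF hlo t i z (In.conv hz.1 hz.2 hx.1 hx.2)).continuousAt).continuousWithinAt)
          (fun z hz => DD_der hF hlo t i z (In.conv hz.1.le hz.2.le hx.1 hx.2))
        refine ⟨y, In.conv hy.1.le hy.2.le hx.1 hx.2, ?_⟩
        rw [he]
        have : x + h - x = h := by ring
        rw [this]
        field_simp
    obtain ⟨y, hy, he⟩ := key
    obtain ⟨ξ, h1, h2, h3⟩ := ih (i + 1) y hy
    refine ⟨ξ, h1, h2, ?_⟩
    show DD t (F i) (x + h) - DD t (F i) x = _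
    rw [he, h3, List.prod_cons, List.length_cons]
    push_cast
    have : i + 1 + t.length = i + (t.length + 1) := by ring
    rw [this]; ring

/-- coefficients of the derivatives of the square root -/
noncomputable def cm : ℕ → ℝ
  | 0 => 1
  | m + 1 => cm m * (1 / 2 - m)

/-- derivatives of the square root -/
noncomputable def Fs (m : ℕ) (x : ℝ) : ℝ := cm m * x ^ ((1 / 2 : ℝ) - m)

theorem Fs_der : Der Fs := by
  intro i x hx
  unfold Fs
  have h1 := (Real.hasDerivAt_rpow_const (x := x) (p := (1 / 2 : ℝ) - i) (Or.inl hx.ne')).const_mul (cm i)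
  have e : cm i * (((1 / 2 : ℝ) - i) * x ^ ((1 / 2 : ℝ) - i - 1)) = cm (i + 1) * x ^ ((1 / 2 : ℝ) - (i + 1 : ℕ)) := by
    rw [cm]; push_cast
    have : (1 / 2 : ℝ) - i - 1 = 1 / 2 - (i + 1) := by ring
    rw [this]; ring
  rw [e] at h1
  exact h1

theorem Fs_zero (x : ℝ) : Fs 0 x = √x := by
  unfold Fs cm
  rw [one_mul, Real.sqrt_eq_rpow]; simp

theorem cm_ne (m : ℕ) : cm m ≠ 0 := by
  induction m with
  | zero => simp [cm]
  | succ m ih =>
    rw [cm]
    apply mul_ne_zero ih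
    intro h
    have h2 : (2 * m : ℝ) = 1 := by linarith
    have h3 : (2 * m : ℕ) = 1 := by exact_mod_cast h2
    omega

theorem DD_sqrt (hs : List ℤ) (x : ℝ) : DD hs Real.sqrt x = DD hs (Fs 0) x := by
  have : Real.sqrt = Fs 0 := by funext y; rw [Fs_zero]
  rw [this]

/-- the reversed sequence -/
theorem dd2 (G : ℝ → ℝ) (s c : ℝ) (n : ℕ) (g : ℕ → ℝ) (hg : ∀ i : ℕ, g i = s * G (c - i)) :
    dd 2 g n = s * DD [1, 1] G (c - n - 2) := by
  simp only [dd, DD, hg]
  push_cast
  have e1 : c - ((n : ℝ) + 1 + 1) = c - n - 2 := by ring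
  have e2 : c - ((n : ℝ) + 1) = c - n - 2 + 1 := by ring
  have e3 : c - (n : ℝ) = c - n - 2 + 1 + 1 := by ring
  rw [e1, e2, e3]
  have e4 : c - (n : ℝ) - 2 + 1 + 1 - 2 = c - n - 2 := by ring
  have e5 : c - (n : ℝ) - 2 + 1 + 1 - 2 + 1 = c - n - 2 + 1 := by ring
  try rw [e4]
  ring_nf

theorem dd3 (G : ℝ → ℝ) (s c : ℝ) (n : ℕ) (g : ℕ → ℝ) (hg : ∀ i : ℕ, g i = s * G (c - i)) :
    dd 3 g n = -(s * DD [1, 1, 1] G (c - n - 3)) := by
  simp only [dd, DD, hg]
  push_cast
  ring_nf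

theorem DD_app (G : ℝ → ℝ) (hs : List ℤ) : ∀ (l : List ℤ) (x : ℝ), DD l (DD hs G) x = DD (l ++ hs) G x := by
  intro l
  induction l with
  | nil => intro x; rfl
  | cons h t ih => intro x; simp only [DD, List.cons_append, ih]

end Pool.Agent.TH690.GU
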