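import Pool.Agent.TH690.GU.Main

/-! Systems of linear forms with complex functions. -/

set_option autoImplicit false

namespace Pool.Agent.TH690.GU

open Finset Filter Topology Pool.Agent.W36.GU Pool.Agent.W36.GV Pool.Agent.W36.GK Pool.Agent.Helper153.Vdc

/-- the two parts of a complex function -/
noncomputable def part (s : Bool) (z : ℂ) : ℝ := if s then z.im else z.re

theorem part_abs (s : Bool) (z : ℂ) : |part s z| ≤ ‖z‖ := by
  unfold part
  split_ifs
  · exact Complex.abs_im_le_norm z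
  · exact Complex.abs_re_le_norm z

noncomputable def zz (s : Bool) : ℂ := if s then Complex.I else 1

theorem zz_norm (s : Bool) : ‖zz s‖ = 1 := by
  unfold zz; split_ifs <;> simp

theorem part_sum (z : ℂ) : z = ∑ s : Bool, zz s * ((part s z : ℝ) : ℂ) := by
  rw [Fintype.sum_bool]
  unfold zz part
  simp only [if_true, Bool.false_eq_true, if_false, one_mul]
  rw [add_comm, mul_comm]
  exact (Complex.re_add_im z).symm

open Classical in
/-- the phase, cut off -/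
noncomputable def WE (θ : ℝ) (X : ℕ) (n : ℤ) : ℂ := if 1 ≤ n ∧ n ≤ (X : ℤ) then ee (θ * √(n : ℝ)) else 0

theorem part_WE (θ : ℝ) (X : ℕ) (s : Bool) : ∃ c : ℂ, ‖c‖ ≤ 1 ∧ (fun n => part s (WE θ X n)) = FF θ c X := by
  cases s
  · refine ⟨1, by simp, ?_⟩
    funext n
    unfold part WE FF
    split_ifs <;> simp_all
  · refine ⟨-Complex.I, by simp, ?_⟩
    funext n
    unfold part WE FF
    split_ifs <;> simp_all

theorem forms_c {D r : ℕ} (Λ : Fin r → Fin D → ℤ) (h0 : ∀ i, Λ i ≠ 0) (hΛ : ∀ i j, i ≠ j → Indep (Λ i) (Λ j)) (i0 : Fin r)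
    {θ : ℝ} (hθ : θ ≠ 0) {ε : ℝ} (hε : 0 < ε) : ∃ X0 : ℕ, ∀ X : ℕ, X0 ≤ X → ∀ c : Fin r → ℤ, ∀ P P' : Fin D → ℤ,
    (∀ j, P' j - P j ≤ X) → ∀ b : Fin r → ℤ → ℂ, (∀ i n, ‖b i n‖ ≤ 1) →
    ‖∑ x ∈ box P P', WE θ X (dot (Λ i0) x + c i0) * ∏ i ∈ univ.erase i0, b i (dot (Λ i) x + c i)‖ ≤ ε * (X : ℝ) ^ D := by
  classical
  obtain ⟨δ, hδ, X1, h1⟩ := forms_small Λ h0 hΛ i0 (ε := ε / 2 ^ r) (by positivity)
  obtain ⟨X2, h2⟩ := GN_small hθ (r + 1) hδ
  refine ⟨X1 + X2, fun X hX c P P' hP b hb => ?_⟩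
  set B : Fin r → ℤ → ℂ := fun i n => if i = i0 then WE θ X n else b i n with hB
  have hBn : ∀ i n, ‖B i n‖ ≤ 1 := by
    intro i n
    simp only [hB]
    split_ifs
    · unfold WE
      split_ifs
      · rw [ee_norm]
      · simp
    · exact hb i n
  have e1 : ∀ x : Fin D → ℤ, WE θ X (dot (Λ i0) x + c i0) * ∏ i ∈ univ.erase i0, b i (dot (Λ i) x + c i) =
      ∏ i, B i (dot (Λ i) x + c i) := by
    intro x
    rw [← mul_prod_erase univ _ (mem_univ i0)]
    congr 1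
    · simp only [hB, if_true]
    · apply prod_congr rfl
      intro i hi
      simp only [hB]
      rw [if_neg (ne_of_mem_erase hi)]
  have e2 : ∀ x : Fin D → ℤ, ∏ i, B i (dot (Λ i) x + c i) =
      ∑ σ : Fin r → Bool, (∏ i, zz (σ i)) * ((∏ i, part (σ i) (B i (dot (Λ i) x + c i)) : ℝ) : ℂ) := by
    intro x
    have e3 : ∀ i, B i (dot (Λ i) x + c i) = ∑ s : Bool, zz s * ((part s (B i (dot (Λ i) x + c i)) : ℝ) : ℂ) :=
      fun i => part_sum _
    rw [prod_congr rfl fun i _ => e3 i, Finset.prod_univ_sum, Fintype.piFinset_univ]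
    apply sum_congr rfl; intro σ _
    rw [prod_mul_distrib, Complex.ofReal_prod]
  have e4 : ∑ x ∈ box P P', WE θ X (dot (Λ i0) x + c i0) * ∏ i ∈ univ.erase i0, b i (dot (Λ i) x + c i) =
      ∑ σ : Fin r → Bool, (∏ i, zz (σ i)) * ((∑ x ∈ box P P', ∏ i, part (σ i) (B i (dot (Λ i) x + c i)) : ℝ) : ℂ) := by
    rw [sum_congr rfl fun x _ => (e1 x).trans (e2 x), sum_comm]
    apply sum_congr rfl; intro σ _
    rw [← mul_sum, Complex.ofReal_sum]
  rw [e4]
  have e5 : ∀ σ : Fin r → Bool, ‖(∏ i, zz (σ i)) * ((∑ x ∈ box P P', ∏ i, part (σ i) (B i (dot (Λ i) x + c i)) : ℝ) : ℂ)‖ ≤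
      ε / 2 ^ r * (X : ℝ) ^ D := by
    intro σ
    rw [norm_mul, norm_prod, prod_congr rfl fun i _ => zz_norm (σ i), prod_const_one, one_mul, Complex.norm_real, Real.norm_eq_abs]
    obtain ⟨c', hc', hF⟩ := part_WE θ X (σ i0)
    have hg0 : (fun n => part (σ i0) (B i0 n)) = FF θ c' X := by
      rw [← hF]; funext n; simp only [hB, if_true]
    refine h1 X (by omega) c P P' hP (fun i n => part (σ i) (B i n)) (fun i n => (part_abs _ _).trans (hBn i n)) ?_ ?_
    · show Sup (fun n => part (σ i0) (B i0 n)) X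
      rw [hg0]; exact FF_Sup θ c' X
    · show GN (r + 1) (fun n => part (σ i0) (B i0 n)) X ≤ _
      rw [hg0]; exact h2 X (by omega) c' hc'
  refine (norm_sum_le _ _).trans ((sum_le_card_nsmul _ _ _ fun σ _ => e5 σ).trans (le_of_eq ?_))
  rw [card_univ, Fintype.card_pi]
  simp only [Fintype.card_bool, prod_const, card_univ, Fintype.card_fin, nsmul_eq_mul]
  push_cast
  field_simp

end Pool.Agent.TH690.GU
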