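import Pool.Agent.TH690.GU.Cube

/-! Gowers norms of `cos (2 π θ √n)`. -/

set_option autoImplicit false

namespace Pool.Agent.TH690.GU

open Finset Filter Topology Pool.Agent.W36.GU Pool.Agent.W36.GV Pool.Agent.Helper153.Vdc

open Classical in
/-- the top phases -/
noncomputable def uu (θ a b : ℝ) (hs : List ℤ) (n : ℤ) : ℂ := if In a b hs n then ee (θ * DD hs Real.sqrt n) else 0

theorem uu_cons (θ a b : ℝ) (hs : List ℤ) (t n : ℤ) :
    starRingEnd ℂ (uu θ a b hs n) * uu θ a b hs (n + t) = uu θ a b (t :: hs) n := by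
  unfold uu
  by_cases h1 : In a b hs n
  · by_cases h2 : In a b hs ((n : ℝ) + t)
    · have h3 : In a b (t :: hs) n := ⟨h1, h2⟩
      rw [if_pos h1, if_pos h3, if_pos (by push_cast; exact h2), mul_comm, ee_mul_conj]
      congr 1
      show _ = θ * (DD hs Real.sqrt ((n : ℝ) + t) - DD hs Real.sqrt n)
      push_cast; ring
    · have h3 : ¬ In a b (t :: hs) n := fun h => h2 h.2
      rw [if_neg h3, if_neg (c := In a b hs ((n + t : ℤ) : ℝ)) (by push_cast; exact h2), mul_zero]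
  · have h3 : ¬ In a b (t :: hs) n := fun h => h1 h.1
    rw [if_neg h3, if_neg h1, map_zero, zero_mul]

theorem uu_norm (θ a b : ℝ) (hs : List ℤ) (n : ℤ) : ‖uu θ a b hs n‖ ≤ 1 := by
  unfold uu
  split_ifs
  · rw [ee_norm]
  · simp

theorem card_small {X : ℕ} {δ : ℝ} (hX : 1 ≤ δ * X) :
    (((Icc (-(X : ℤ)) X).filter (fun t : ℤ => |(t : ℝ)| < δ * X)).card : ℝ) ≤ 3 * δ * X := by
  have h1 : (Icc (-(X : ℤ)) X).filter (fun t : ℤ => |(t : ℝ)| < δ * X) ⊆ Icc (-(⌊δ * X⌋₊ : ℤ)) ⌊δ * X⌋₊ := by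
    intro t ht
    rw [mem_filter] at ht
    rw [mem_Icc]
    have h2 : (t.natAbs : ℝ) ≤ δ * X := by
      rw [Nat.cast_natAbs]; push_cast; exact ht.2.le
    have h3 := Nat.le_floor h2
    omega
  have h2 := card_le_card h1
  rw [Int.card_Icc] at h2
  have h3 : ((⌊δ * X⌋₊ : ℤ) + 1 - -(⌊δ * X⌋₊ : ℤ)).toNat = 2 * ⌊δ * X⌋₊ + 1 := by omega
  rw [h3] at h2
  have h4 : ((((Icc (-(X : ℤ)) X).filter (fun t : ℤ => |(t : ℝ)| < δ * X)).card : ℕ) : ℝ) ≤ ((2 * ⌊δ * X⌋₊ + 1 : ℕ) : ℝ) := by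
    exact_mod_cast h2
  have h5 := Nat.floor_le (show 0 ≤ δ * X by linarith)
  push_cast at h4
  linarith

theorem Al_BC_top : ∀ (k : ℕ) (b : Fam k), Al BC k b → BC (top k b) := by
  intro k
  induction k with
  | zero => intro b hb; exact hb
  | succ k ih => intro b hb; exact ih b.1 hb.1

theorem CG_triv {X : ℕ} (hX : 1 ≤ X) (k : ℕ) (a : Fam k) (ha : Al BC k a) :
    ‖CG k a X‖ ≤ 3 ^ k * (X : ℝ) ^ (k + 1) := by
  refine (CG_l1 hX k a ha).trans ?_
  have h1 : ∑ n ∈ Icc (1 : ℤ) X, ‖top k a n‖ ≤ X := by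
    refine (sum_le_card_nsmul _ _ _ (fun n _ => Al_BC_top k a ha n)).trans ?_
    rw [Int.card_Icc]; simp
  calc 3 ^ k * (X : ℝ) ^ k * ∑ n ∈ Icc (1 : ℤ) X, ‖top k a n‖ ≤ 3 ^ k * (X : ℝ) ^ k * X :=
        mul_le_mul_of_nonneg_left h1 (by positivity)
    _ = _ := by ring

theorem main {θ : ℝ} (hθ : θ ≠ 0) : ∀ (k j : ℕ) {δ : ℝ}, 0 < δ → ∀ {ε : ℝ}, 0 < ε →
    ∃ X0 : ℕ, ∀ X : ℕ, X0 ≤ X → ∀ hs : List ℤ, hs.length = j →
      (∀ h ∈ hs, δ * X ≤ |(h : ℝ)| ∧ |(h : ℝ)| ≤ X) → ∀ a b : ℝ, δ * X ≤ a → b ≤ X →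
      ∀ f : Fam k, Al BC k f → Al (SC X) k f → top k f = uu θ a b hs → ‖CG k f X‖ ≤ ε * (X : ℝ) ^ (k + 1) := by
  intro k
  induction k with
  | zero =>
    intro j δ hδ ε hε
    obtain ⟨X0, h⟩ := base hθ hδ j hε
    refine ⟨X0 + 1, fun X hX hs hj hh a b ha hb f _ _ hf => ?_⟩
    classical
    have hXp : (0 : ℝ) < X := by exact_mod_cast (by omega : 0 < X)
    have h1 := h X (by omega) hs hj hh a b ha hb ((Icc (1 : ℤ) X).filter (fun n => In a b hs n)) (by
      intro n
      rw [mem_filter, mem_Icc]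
      refine ⟨fun h => h.2, fun h => ⟨⟨?_, ?_⟩, h⟩⟩
      · have : (0 : ℝ) < n := lt_of_lt_of_le (by positivity) (ha.trans h.base.1)
        have : 0 < n := by exact_mod_cast this
        omega
      · exact_mod_cast h.base.2.trans hb)
    have h2 : CG 0 f X = ∑ n ∈ (Icc (1 : ℤ) X).filter (fun n : ℤ => In a b hs n), ee (θ * DD hs Real.sqrt n) := by
      show ∑ n ∈ Icc (1 : ℤ) X, (show ℂ from top 0 f n) = _
      rw [hf, sum_filter]
      apply sum_congr rfl; intro n _
      unfold uu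
      congr 1
    rw [h2]
    simpa using h1
  | succ k ih =>
    intro j δ hδ ε hε
    set ε' : ℝ := ε ^ 2 / (2 * 3 ^ (k + 1)) with hε'
    set δ' : ℝ := min δ (ε ^ 2 / (2 * 3 ^ (2 * k + 1))) with hδ'
    have hε'0 : 0 < ε' := by positivity
    have hδ'0 : 0 < δ' := lt_min hδ (by positivity)
    obtain ⟨X0, h⟩ := ih (j + 1) hδ'0 hε'0
    obtain ⟨X1, hX1⟩ := exists_nat_ge (1 / δ')
    refine ⟨X0 + X1 + 1, fun X hX hs hj hh a b ha hb f hB hS hf => ?_⟩
    have hX1' : 1 ≤ X := by omega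
    have hXp : (0 : ℝ) < X := by exact_mod_cast (by omega : 0 < X)
    have hXδ : 1 ≤ δ' * X := by
      rw [div_le_iff₀ hδ'0] at hX1
      have : (X1 : ℝ) ≤ X := by exact_mod_cast (by omega : X1 ≤ X)
      nlinarith
    have hδδ : δ' * X ≤ δ * X := mul_le_mul_of_nonneg_right (min_le_left _ _) hXp.le
    have hcs := CS k f.1 f.2 hS.1 hS.2
    have hn2 := NG_le hX1' k f.2 hB.2
    have hn1 : NG k f.1 X ≤ 3 * (δ' * 3 ^ k + ε') * (X : ℝ) ^ (k + 2) := by
      have e1 : NG k f.1 X = ‖CG (k + 1) (cj k f.1, f.1) X‖ := by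
        rw [NG_eq k f.1 hS.1, Complex.norm_real, Real.norm_of_nonneg (NG_nonneg k _)]
      rw [e1]
      show ‖∑ t ∈ Icc (-(X : ℤ)) X, CG k (mS k t (cj k f.1) f.1) X‖ ≤ _
      refine (norm_sum_le _ _).trans ?_
      have e2 : ∀ t ∈ Icc (-(X : ℤ)) X, ‖CG k (mS k t (cj k f.1) f.1) X‖ ≤
          (if |(t : ℝ)| < δ' * X then 3 ^ k * (X : ℝ) ^ (k + 1) else 0) + ε' * (X : ℝ) ^ (k + 1) := by
        intro t ht
        have hBt := BC_mS k t (cj k f.1) f.1 (BC_cj k f.1 hB.1) hB.1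
        by_cases htt : |(t : ℝ)| < δ' * X
        · rw [if_pos htt]
          have := CG_triv hX1' k _ hBt
          have h9 : 0 ≤ ε' * (X : ℝ) ^ (k + 1) := by positivity
          linarith
        · rw [if_neg htt, zero_add]
          push Not at htt
          refine h X (by omega) (t :: hs) (by simp [hj]) ?_ a b (hδδ.trans ha) hb _ hBt (SC_mS k t _ _ (SC_cj k f.1 hS.1)) ?_
          · intro x hx
            rcases List.mem_cons.1 hx with rfl | hx
            · refine ⟨htt, ?_⟩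
              rw [mem_Icc] at ht
              rw [abs_le]
              constructor
              · exact_mod_cast ht.1
              · exact_mod_cast ht.2
            · exact ⟨hδδ.trans (hh x hx).1, (hh x hx).2⟩
          · rw [top_mS, top_cj]
            have hf' : top k f.1 = uu θ a b hs := hf
            rw [hf']
            funext n
            exact uu_cons θ a b hs t n
      refine (sum_le_sum e2).trans ?_
      rw [sum_add_distrib, ← sum_filter, sum_const, sum_const, nsmul_eq_mul, nsmul_eq_mul]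
      have c1 := card_small hXδ
      have c2 := card_IX hX1'
      calc _ ≤ (3 * δ' * X) * (3 ^ k * (X : ℝ) ^ (k + 1)) + (3 * X) * (ε' * (X : ℝ) ^ (k + 1)) :=
            add_le_add (mul_le_mul_of_nonneg_right c1 (by positivity)) (mul_le_mul_of_nonneg_right c2 (by positivity))
        _ = _ := by ring
    have hfin : √(NG k f.1 X) * √(NG k f.2 X) ≤ ε * (X : ℝ) ^ (k + 1 + 1) := by
      rw [← Real.sqrt_mul (NG_nonneg k _)]
      apply Real.sqrt_le_iff.2
      refine ⟨by positivity, ?_⟩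
      have hd : δ' ≤ ε ^ 2 / (2 * 3 ^ (2 * k + 1)) := min_le_right _ _
      rw [le_div_iff₀ (by positivity)] at hd
      have he : ε' * (2 * 3 ^ (k + 1)) = ε ^ 2 := by rw [hε']; field_simp
      have hk : (3 * (δ' * 3 ^ k + ε')) * 3 ^ k ≤ ε ^ 2 := by
        have p1 : (3 : ℝ) ^ (2 * k + 1) = 3 ^ k * 3 ^ k * 3 := by ring
        have p2 : (3 : ℝ) ^ (k + 1) = 3 ^ k * 3 := by ring
        rw [p1] at hd
        rw [p2] at he
        nlinarith
      calc NG k f.1 X * NG k f.2 X ≤ (3 * (δ' * 3 ^ k + ε') * (X : ℝ) ^ (k + 2)) * (3 ^ k * (X : ℝ) ^ (k + 2)) :=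
            mul_le_mul hn1 hn2 (NG_nonneg k _) (by positivity)
        _ = ((3 * (δ' * 3 ^ k + ε')) * 3 ^ k) * ((X : ℝ) ^ (k + 2)) ^ 2 := by ring
        _ ≤ ε ^ 2 * ((X : ℝ) ^ (k + 2)) ^ 2 := mul_le_mul_of_nonneg_right hk (by positivity)
        _ = _ := by ring
    exact hcs.trans hfin

open Classical in
/-- the real parts, cut off -/
noncomputable def FF (θ : ℝ) (c : ℂ) (X : ℕ) (n : ℤ) : ℝ := if 1 ≤ n ∧ n ≤ (X : ℤ) then (c * ee (θ * √(n : ℝ))).re else 0

theorem FF_B1 (θ : ℝ) {c : ℂ} (hc : ‖c‖ ≤ 1) (X : ℕ) : B1 (FF θ c X) := by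
  intro n
  unfold FF
  split_ifs
  · refine (Complex.abs_re_le_norm _).trans ?_
    rw [norm_mul, ee_norm, mul_one]; exact hc
  · simp

theorem FF_Sup (θ : ℝ) (c : ℂ) (X : ℕ) : Sup (FF θ c X) X := by
  intro n hn
  unfold FF at hn
  by_contra h
  rw [if_neg h] at hn
  exact hn rfl

theorem GN_small {θ : ℝ} (hθ : θ ≠ 0) (k : ℕ) {ε : ℝ} (hε : 0 < ε) : ∃ X0 : ℕ, ∀ X : ℕ, X0 ≤ X →
    ∀ c : ℂ, ‖c‖ ≤ 1 → GN k (FF θ c X) X ≤ ε * (X : ℝ) ^ (k + 1) := by
  classical
  set δ : ℝ := ε / (2 * 3 ^ k) with hδ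
  have hδ0 : 0 < δ := by positivity
  obtain ⟨X0, h⟩ := main hθ k 0 hδ0 (ε := ε / 2) (by positivity)
  refine ⟨X0 + 1, fun X hX c hc => ?_⟩
  have hX1' : 1 ≤ X := by omega
  have hXp : (0 : ℝ) < X := by exact_mod_cast (by omega : 0 < X)
  set g : ℤ → ℂ := fun n => (FF θ c X n : ℂ) with hg
  have hgB : BC g := fun n => by
    simp only [hg]
    rw [Complex.norm_real, Real.norm_eq_abs]; exact FF_B1 θ hc X n
  have hgS : SC X g := fun n hn => FF_Sup θ c X n (by
    intro h0; apply hn; simp only [hg]; rw [h0]; simp)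
  set u : ℤ → ℂ := uu θ (δ * X) X [] with hu
  have huB : BC u := uu_norm θ _ _ _
  have huS : SC X u := by
    intro n hn
    have : In (δ * X) X [] n := by
      by_contra h
      apply hn
      simp only [hu]
      unfold uu
      rw [if_neg h]
    constructor
    · have : (0 : ℝ) < n := lt_of_lt_of_le (by positivity) this.1
      have : 0 < n := by exact_mod_cast this
      omega
    · exact_mod_cast this.2
  set R : ℤ → ℂ := fun n => if (n : ℝ) < δ * X then g n else 0 with hR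
  have hdec : g = fun n => (fun n => (c / 2) * u n + (starRingEnd ℂ c / 2) * starRingEnd ℂ (u n)) n + R n := by
    funext n
    simp only [hR]
    by_cases h1 : (n : ℝ) < δ * X
    · have h2 : u n = 0 := by
        simp only [hu]
        unfold uu
        rw [if_neg (fun h => by have := h.1; linarith)]
      rw [if_pos h1, h2]; simp
    · rw [if_neg h1, add_zero]
      push Not at h1
      by_cases h2 : n ≤ (X : ℤ)
      · have h3 : 1 ≤ n := by
          have : (0 : ℝ) < n := lt_of_lt_of_le (by positivity) h1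
          have : 0 < n := by exact_mod_cast this
          omega
        have h4 : u n = ee (θ * √(n : ℝ)) := by
          simp only [hu]
          unfold uu
          rw [if_pos (show In (δ * X) X [] n from ⟨h1, by exact_mod_cast h2⟩)]
          rfl
        simp only [hg]
        unfold FF
        rw [if_pos ⟨h3, h2⟩, h4, Complex.re_eq_add_conj, map_mul]
        ring
      · have h3 : ¬ (1 ≤ n ∧ n ≤ (X : ℤ)) := fun h => h2 h.2
        have h4 : u n = 0 := by
          simp only [hu]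
          unfold uu
          rw [if_neg]
          intro h
          apply h2
          exact_mod_cast h.2
        simp only [hg]
        unfold FF
        rw [if_neg h3, h4]; simp
  set Fm : Fam k := cst k g with hFm
  have hFB : Al BC k Fm := Al_cst k g hgB
  have hFS : Al (SC X) k Fm := Al_cst k g hgS
  have e0 : ((GN k (FF θ c X) X : ℝ) : ℂ) = CG k (rT k Fm g) X := by
    rw [← CG_cst, hFm, rT_cst]
  have e1 : CG k (rT k Fm g) X = ((c / 2) * CG k (rT k Fm u) X + (starRingEnd ℂ c / 2) * CG k (rT k Fm (fun n => starRingEnd ℂ (u n))) X)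
      + CG k (rT k Fm R) X := by
    conv_lhs => rw [hdec]
    rw [CG_add, CG_add, CG_smul, CG_smul]
  have e2 : CG k (rT k Fm (fun n => starRingEnd ℂ (u n))) X = starRingEnd ℂ (CG k (rT k Fm u) X) := by
    have hgc : (fun n => starRingEnd ℂ (g n)) = g := by
      funext n
      simp only [hg, Complex.conj_ofReal]
    rw [← CG_cj, cj_rT, hFm, cj_cst, hgc]
  have b1 : ‖CG k (rT k Fm u) X‖ ≤ ε / 2 * (X : ℝ) ^ (k + 1) :=
    h X (by omega) [] rfl (by simp) (δ * X) X le_rfl le_rfl _ (Al_rT k _ _ hFB huB) (Al_rT k _ _ hFS huS) (top_rT k _ _)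
  have b2 : ‖CG k (rT k Fm R) X‖ ≤ ε / 2 * (X : ℝ) ^ (k + 1) := by
    have hRB : BC R := by
      intro n
      simp only [hR]
      split_ifs
      · exact hgB n
      · simp
    refine (CG_l1 hX1' k _ (Al_rT k _ _ hFB hRB)).trans ?_
    rw [top_rT]
    have h5 : ∑ n ∈ Icc (1 : ℤ) X, ‖R n‖ ≤ δ * X := by
      calc ∑ n ∈ Icc (1 : ℤ) X, ‖R n‖ ≤ ∑ n ∈ Icc (1 : ℤ) X, (if (n : ℝ) < δ * X then (1 : ℝ) else 0) := by
            apply sum_le_sum; intro n _
            simp only [hR]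
            split_ifs
            · exact hgB n
            · simp
        _ = (((Icc (1 : ℤ) X).filter (fun n : ℤ => (n : ℝ) < δ * X)).card : ℝ) := by
            rw [← sum_filter, sum_const, nsmul_eq_mul, mul_one]
        _ ≤ δ * X := by
            have h6 : (Icc (1 : ℤ) X).filter (fun n : ℤ => (n : ℝ) < δ * X) ⊆ Icc (1 : ℤ) ⌊δ * X⌋₊ := by
              intro n hn
              rw [mem_filter, mem_Icc] at hn
              rw [mem_Icc]
              refine ⟨hn.1.1, ?_⟩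
              have h7 : ((n.toNat : ℕ) : ℝ) ≤ δ * X := by
                have : ((n.toNat : ℤ) : ℝ) = (n : ℝ) := by
                  exact_mod_cast Int.toNat_of_nonneg (by omega)
                have h8 : ((n.toNat : ℕ) : ℝ) = ((n.toNat : ℤ) : ℝ) := by norm_cast
                rw [h8, this]; exact hn.2.le
              have h8 := Nat.le_floor h7
              omega
            have h7 := card_le_card h6
            rw [Int.card_Icc] at h7
            have h8 : ((⌊δ * X⌋₊ : ℤ) + 1 - 1).toNat = ⌊δ * X⌋₊ := by omega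
            rw [h8] at h7
            have h9 : ((((Icc (1 : ℤ) X).filter (fun n : ℤ => (n : ℝ) < δ * X)).card : ℕ) : ℝ) ≤ (⌊δ * X⌋₊ : ℝ) := by
              exact_mod_cast h7
            exact h9.trans (Nat.floor_le (by positivity))
    calc 3 ^ k * (X : ℝ) ^ k * ∑ n ∈ Icc (1 : ℤ) X, ‖R n‖ ≤ 3 ^ k * (X : ℝ) ^ k * (δ * X) :=
          mul_le_mul_of_nonneg_left h5 (by positivity)
      _ = (3 ^ k * δ) * (X : ℝ) ^ (k + 1) := by ring
      _ = ε / 2 * (X : ℝ) ^ (k + 1) := by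
          congr 1
          rw [hδ]; field_simp
  have b3 : GN k (FF θ c X) X ≤ ‖((GN k (FF θ c X) X : ℝ) : ℂ)‖ := by
    rw [Complex.norm_real]; exact le_abs_self _
  refine b3.trans ?_
  rw [e0, e1, e2]
  have hc2 : ‖c / 2‖ ≤ 1 / 2 := by
    rw [norm_div]; norm_num
    linarith
  have hc3 : ‖starRingEnd ℂ c / 2‖ ≤ 1 / 2 := by
    rw [norm_div, RCLike.norm_conj]; norm_num
    linarith
  have n1 : ‖(c / 2) * CG k (rT k Fm u) X‖ ≤ 1 / 2 * (ε / 2 * (X : ℝ) ^ (k + 1)) := by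
    rw [norm_mul]
    exact mul_le_mul hc2 b1 (norm_nonneg _) (by norm_num)
  have n2 : ‖(starRingEnd ℂ c / 2) * starRingEnd ℂ (CG k (rT k Fm u) X)‖ ≤ 1 / 2 * (ε / 2 * (X : ℝ) ^ (k + 1)) := by
    rw [norm_mul, RCLike.norm_conj]
    exact mul_le_mul hc3 b1 (norm_nonneg _) (by norm_num)
  refine (norm_add_le _ _).trans ?_
  refine (add_le_add (norm_add_le _ _) le_rfl).trans ?_
  linarith

end Pool.Agent.TH690.GU
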